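import Pool.Agent.H92.Am.Tree
import Pool.Agent.Y75.BF.Emb

set_option autoImplicit false

/-!
The tree of an amalgamated product.
-/

namespace Pool.Agent.H92.Am

open Finsupp
open Monoid (PushoutI)
open Pool.Agent.Y75.BF.Gr (Sd sd_mul sd_one sd_inv sdG ac ac_single ac_one ac_mul bd bd_single bd_ac
  Dat exists_chain fixed_chain exists_fixed deg deg_single deg_bd)

universe u

variable {ι : Type u} {G : ι → Type u} {H : Type u} [∀ i, Group (G i)] [Group H]
  (φ : ∀ i, H →* G i)

/-- the base group -/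
def BB : Subgroup (PushoutI φ) := (PushoutI.base φ).range

/-- the factors -/
def SI (i : ι) : Subgroup (PushoutI φ) := (PushoutI.of (φ := φ) i).range

theorem BB_le (i : ι) : BB φ ≤ SI φ i := by
  rintro _ ⟨h, rfl⟩
  exact ⟨φ i h, PushoutI.of_apply_eq_base φ i h⟩

/-- the edges -/
abbrev Ed : Type u := Σ _ : ι, PushoutI φ ⧸ BB φ

/-- the vertices -/
abbrev Ve : Type u := (PushoutI φ ⧸ BB φ) ⊕ (Σ i : ι, PushoutI φ ⧸ SI φ i)

/-- the source -/
def src (e : Ed φ) : Ve φ := Sum.inl e.2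

/-- the target -/
def tgt (e : Ed φ) : Ve φ := Sum.inr ⟨e.1, Subgroup.quotientMapOfLE (BB_le φ e.1) e.2⟩

theorem src_smul (g : PushoutI φ) (e : Ed φ) : src φ (g • e) = g • src φ e := rfl

theorem tgt_smul (g : PushoutI φ) (e : Ed φ) : tgt φ (g • e) = g • tgt φ e := by
  obtain ⟨i, c⟩ := e
  induction c using QuotientGroup.induction_on with
  | _ a => rfl

/-- an edge -/
def ed (i : ι) (g : PushoutI φ) : Ed φ := ⟨i, QuotientGroup.mk g⟩

theorem ed_smul (i : ι) (g h : PushoutI φ) : g • ed φ i h = ed φ i (g * h) := rfl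

theorem ed_base (i : ι) (g : PushoutI φ) (h : H) : ed φ i (g * PushoutI.base φ h) = ed φ i g := by
  unfold ed
  congr 1
  rw [QuotientGroup.eq]
  refine ⟨h⁻¹, ?_⟩
  rw [map_inv]
  group

/-- the crossed homomorphism as a homomorphism -/
noncomputable def mag : PushoutI φ →* Sd (PushoutI φ) (Ed φ) :=
  PushoutI.lift
    (fun i =>
      { toFun := fun x => ⟨single (ed φ i 1) 1 - single (ed φ i (PushoutI.of i x)) 1, PushoutI.of i x⟩
        map_one' := by
          rw [map_one, sub_self]; rfl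
        map_mul' := by
          intro a b
          rw [map_mul, sd_mul]
          simp only [map_sub, ac_single, ed_smul, mul_one]
          congr 1
          abel })
    { toFun := fun h => ⟨0, PushoutI.base φ h⟩
      map_one' := by rw [map_one]; rfl
      map_mul' := by
        intro a b
        rw [map_mul, sd_mul]
        simp only [map_zero, add_zero] }
    (by
      intro i
      refine MonoidHom.ext fun h => Sd.ext ?_ ?_
      · change single (ed φ i 1) (1 : ℤ) - single (ed φ i (PushoutI.of i (φ i h))) 1 =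
          (0 : Ed φ →₀ ℤ)
        rw [PushoutI.of_apply_eq_base, ← one_mul (PushoutI.base φ h), ed_base, sub_self]
      · exact PushoutI.of_apply_eq_base φ i h)

theorem mag_of (i : ι) (x : G i) : mag φ (PushoutI.of i x) =
    ⟨single (ed φ i 1) 1 - single (ed φ i (PushoutI.of i x)) 1, PushoutI.of i x⟩ := by
  unfold mag
  rw [PushoutI.lift_of]
  rfl

theorem mag_base (h : H) : mag φ (PushoutI.base φ h) = ⟨0, PushoutI.base φ h⟩ := by
  unfold mag
  rw [PushoutI.lift_base]
  rfl

theorem mag_g (g : PushoutI φ) : (mag φ g).g = g := by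
  induction g using PushoutI.induction_on with
  | of i x => rw [mag_of]
  | base h => rw [mag_base]
  | mul a b ha hb => rw [map_mul, sd_mul, ha, hb]

/-- the crossed homomorphism -/
noncomputable def cc (g : PushoutI φ) : Ed φ →₀ ℤ := (mag φ g).m

theorem cc_mul (a b : PushoutI φ) : cc φ (a * b) = cc φ a + ac a (cc φ b) := by
  unfold cc
  rw [map_mul, sd_mul, mag_g]

theorem cc_of (i : ι) (x : G i) :
    cc φ (PushoutI.of i x) = single (ed φ i 1) 1 - single (ed φ i (PushoutI.of i x)) 1 := by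
  unfold cc
  rw [mag_of]

theorem cc_base (h : H) : cc φ (PushoutI.base φ h) = 0 := by
  unfold cc
  rw [mag_base]

theorem src_ed (i : ι) (g : PushoutI φ) : src φ (ed φ i g) = Sum.inl (QuotientGroup.mk g) := rfl

theorem tgt_ed (i : ι) (g : PushoutI φ) :
    tgt φ (ed φ i g) = Sum.inr ⟨i, QuotientGroup.mk g⟩ := rfl

/-- the base vertex -/
def v0 : Ve φ := Sum.inl (QuotientGroup.mk 1)

theorem smul_v0 (g : PushoutI φ) : g • v0 φ = Sum.inl (QuotientGroup.mk g) := by
  change (Sum.inl (QuotientGroup.mk (g * 1)) : Ve φ) = _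
  rw [mul_one]

theorem tgt_of (i : ι) (g : PushoutI φ) (x : G i) :
    tgt φ (ed φ i (g * PushoutI.of i x)) = tgt φ (ed φ i g) := by
  rw [tgt_ed, tgt_ed]
  congr 2
  rw [QuotientGroup.eq]
  refine ⟨x⁻¹, ?_⟩
  rw [map_inv]
  group

theorem base_v0 (g : PushoutI φ) (h : H) :
    (Sum.inl (QuotientGroup.mk (g * PushoutI.base φ h)) : Ve φ) = Sum.inl (QuotientGroup.mk g) := by
  congr 1
  rw [QuotientGroup.eq]
  refine ⟨h⁻¹, ?_⟩
  rw [map_inv]
  group

theorem bd_cc (g : PushoutI φ) : bd (src φ) (tgt φ) (cc φ g) =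
    single (g • v0 φ) 1 - single (v0 φ) 1 := by
  induction g using PushoutI.induction_on with
  | of i x =>
    have h1 := tgt_of φ i 1 x
    rw [one_mul] at h1
    rw [cc_of, map_sub, bd_single, bd_single, src_ed, src_ed, h1, smul_v0]
    change _ = _ - single (Sum.inl (QuotientGroup.mk 1)) (1 : ℤ)
    abel
  | base h =>
    have h1 := base_v0 φ 1 h
    rw [one_mul] at h1
    rw [cc_base, map_zero, smul_v0, h1]
    exact (sub_self _).symm
  | mul a b ha hb =>
    rw [cc_mul, map_add, bd_ac (src_smul φ) (tgt_smul φ), ha, hb, map_sub, ac_single, ac_single,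
      mul_smul]
    abel

/-- the data -/
noncomputable def dat : Dat (PushoutI φ) (Ve φ) (Ed φ) (PushoutI φ) where
  s := src φ
  t := tgt φ
  s_smul := src_smul φ
  t_smul := tgt_smul φ
  v0 := v0 φ
  γ := MonoidHom.id _
  c := cc φ
  mul := cc_mul φ
  del := bd_cc φ
  inj _ hg _ := hg

/-! ### the tree -/

/-- the graph -/
def Tr : SimpleGraph (Ve φ) where
  Adj u v := ∃ e : Ed φ, (src φ e = u ∧ tgt φ e = v) ∨ (src φ e = v ∧ tgt φ e = u)
  symm := ⟨fun u v ⟨e, he⟩ => ⟨e, he.symm⟩⟩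
  loopless := ⟨fun u ⟨e, he⟩ => by
    rcases he with ⟨h1, h2⟩ | ⟨h1, h2⟩
    · exact absurd (h1.trans h2.symm) (by unfold src tgt; simp)
    · exact absurd (h1.trans h2.symm) (by unfold src tgt; simp)⟩

theorem adj_smul (g : PushoutI φ) (u v : Ve φ) (h : (Tr φ).Adj u v) :
    (Tr φ).Adj (g • u) (g • v) := by
  obtain ⟨e, he⟩ := h
  refine ⟨g • e, ?_⟩
  rw [src_smul, tgt_smul]
  rcases he with ⟨rfl, rfl⟩ | ⟨rfl, rfl⟩
  · exact Or.inl ⟨rfl, rfl⟩
  · exact Or.inr ⟨rfl, rfl⟩

theorem reach_smul (g : PushoutI φ) (u v : Ve φ) (h : (Tr φ).Reachable u v) :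
    (Tr φ).Reachable (g • u) (g • v) := by
  let f : Tr φ →g Tr φ := ⟨fun x => g • x, fun {a b} h => adj_smul φ g a b h⟩
  exact h.map f

theorem reach_v0 (g : PushoutI φ) : (Tr φ).Reachable (v0 φ) (g • v0 φ) := by
  induction g using PushoutI.induction_on with
  | of i x =>
    have h1 : (Tr φ).Adj (v0 φ) (tgt φ (ed φ i 1)) := ⟨ed φ i 1, Or.inl ⟨rfl, rfl⟩⟩
    have h2 : (Tr φ).Adj (PushoutI.of i x • v0 φ) (tgt φ (ed φ i 1)) :=
      ⟨ed φ i (PushoutI.of i x), Or.inl ⟨by rw [src_ed, smul_v0], by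
        have h1 := tgt_of φ i 1 x
        rwa [one_mul] at h1⟩⟩
    exact h1.reachable.trans h2.symm.reachable
  | base h =>
    have h1 := base_v0 φ 1 h
    rw [one_mul] at h1
    rw [smul_v0, h1]
    exact SimpleGraph.Reachable.refl _
  | mul a b ha hb =>
    rw [mul_smul]
    exact ha.trans (reach_smul φ a _ _ hb)

theorem tr_connected : (Tr φ).Connected := by
  have h1 : ∀ v : Ve φ, (Tr φ).Reachable (v0 φ) v := by
    intro v
    rcases v with c | ⟨i, c⟩
    · induction c using QuotientGroup.induction_on with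
      | _ g =>
        rw [← smul_v0]
        exact reach_v0 φ g
    · induction c using QuotientGroup.induction_on with
      | _ g =>
        refine (reach_v0 φ g).trans (SimpleGraph.Adj.reachable ?_)
        exact ⟨ed φ i g, Or.inl ⟨by rw [src_ed, smul_v0], rfl⟩⟩
  have : Nonempty (Ve φ) := ⟨v0 φ⟩
  exact SimpleGraph.Connected.mk fun u v => (h1 u).symm.trans (h1 v)

/-- the potential of a vertex -/
noncomputable def pp (v : Ve φ) : Ed φ →₀ ℤ :=
  match v with
  | Sum.inl c => cc φ c.out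
  | Sum.inr ⟨i, c⟩ => cc φ c.out + single (ed φ i c.out) 1

theorem pp_inl (g : PushoutI φ) : pp φ (Sum.inl (QuotientGroup.mk g)) = cc φ g := by
  have h1 : (QuotientGroup.mk (QuotientGroup.mk g : PushoutI φ ⧸ BB φ).out : PushoutI φ ⧸ BB φ) =
      QuotientGroup.mk g := Quotient.out_eq' _
  rw [QuotientGroup.eq] at h1
  obtain ⟨h, hh⟩ := h1
  have h2 : g = (QuotientGroup.mk g : PushoutI φ ⧸ BB φ).out * PushoutI.base φ h := by
    rw [hh]; group
  change cc φ (QuotientGroup.mk g : PushoutI φ ⧸ BB φ).out = _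
  conv_rhs => rw [h2]
  rw [cc_mul, cc_base, map_zero, add_zero]

theorem pp_inr (i : ι) (g : PushoutI φ) :
    pp φ (Sum.inr ⟨i, QuotientGroup.mk g⟩) = cc φ g + single (ed φ i g) 1 := by
  have h1 : (QuotientGroup.mk (QuotientGroup.mk g : PushoutI φ ⧸ SI φ i).out :
      PushoutI φ ⧸ SI φ i) = QuotientGroup.mk g := Quotient.out_eq' _
  rw [QuotientGroup.eq] at h1
  obtain ⟨x, hx⟩ := h1
  obtain ⟨y, hy⟩ : ∃ y, y = (QuotientGroup.mk g : PushoutI φ ⧸ SI φ i).out := ⟨_, rfl⟩
  have h2 : g = y * PushoutI.of i x := by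
    rw [hx, hy]; group
  change cc φ (QuotientGroup.mk g : PushoutI φ ⧸ SI φ i).out +
    single (ed φ i (QuotientGroup.mk g : PushoutI φ ⧸ SI φ i).out) 1 = _
  rw [← hy, h2, cc_mul, cc_of, map_sub, ac_single, ac_single, ed_smul, ed_smul, mul_one]
  abel

theorem pp_edge (e : Ed φ) : pp φ (tgt φ e) = pp φ (src φ e) + single e 1 := by
  obtain ⟨i, c⟩ := e
  induction c using QuotientGroup.induction_on with
  | _ g =>
    change pp φ (Sum.inr ⟨i, QuotientGroup.mk g⟩) = pp φ (Sum.inl (QuotientGroup.mk g)) +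
      single (ed φ i g) 1
    rw [pp_inr, pp_inl]

theorem tr_tree : (Tr φ).IsTree := by
  classical
  refine ⟨tr_connected φ, ?_⟩
  rw [SimpleGraph.isAcyclic_iff_forall_adj_isBridge]
  intro u v huv
  obtain ⟨e, he⟩ := huv
  rw [SimpleGraph.isBridge_iff]
  intro hr
  have key : ∀ a b : Ve φ, ((Tr φ).deleteEdges {s(u, v)}).Adj a b → pp φ a e = pp φ b e := by
    intro a b hab
    rw [SimpleGraph.deleteEdges_adj] at hab
    obtain ⟨⟨e', he'⟩, hn⟩ := hab
    have hne : e' ≠ e := by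
      rintro rfl
      apply hn
      rw [Set.mem_singleton_iff]
      rcases he with ⟨rfl, rfl⟩ | ⟨rfl, rfl⟩ <;> rcases he' with ⟨rfl, rfl⟩ | ⟨rfl, rfl⟩
      · rfl
      · exact Sym2.eq_swap
      · exact Sym2.eq_swap
      · rfl
    have h1 : pp φ (tgt φ e') e = pp φ (src φ e') e := by
      rw [pp_edge, Finsupp.add_apply, Finsupp.single_eq_of_ne (Ne.symm hne), add_zero]
    rcases he' with ⟨rfl, rfl⟩ | ⟨rfl, rfl⟩
    · exact h1.symm
    · exact h1
  have h2 : ∀ a b : Ve φ, ((Tr φ).deleteEdges {s(u, v)}).Reachable a b → pp φ a e = pp φ b e := by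
    rintro a b ⟨p⟩
    induction p with
    | nil => rfl
    | cons h _ ih => exact (key _ _ h).trans ih
  have h3 := h2 u v hr
  have h4 : pp φ (tgt φ e) e = pp φ (src φ e) e + 1 := by
    rw [pp_edge, Finsupp.add_apply, Finsupp.single_eq_same]
  rcases he with ⟨rfl, rfl⟩ | ⟨rfl, rfl⟩ <;> omega

/-- elements conjugate to proper powers are conjugate to elements of the factors -/
theorem elliptic (g : PushoutI φ) (m : ℕ) (hm : 2 ≤ m) (hg : IsConj g (g ^ m)) :
    (∃ h : H, IsConj g (PushoutI.base φ h)) ∨ ∃ (i : ι) (x : G i), IsConj g (PushoutI.of i x) := by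
  obtain ⟨y, hy⟩ := isConj_iff.1 hg
  obtain ⟨w, hw⟩ := exists_chain (dat φ) g y m hm hy
  have hu := fixed_chain (dat φ) g w hw
  have hdeg : deg (Ve φ) (bd (dat φ).s (dat φ).t w - single (dat φ).v0 1) = -1 := by
    rw [map_sub, deg_bd, deg_single, zero_sub]
  have hne : bd (dat φ).s (dat φ).t w - single (dat φ).v0 1 ≠ 0 := by
    intro h0
    rw [h0, map_zero] at hdeg
    exact absurd hdeg (by norm_num)
  obtain ⟨v, k, hk, hv⟩ := exists_fixed _ _ hu hne
  have hv' : g ^ k • v = v := hv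
  obtain ⟨z, hz⟩ := exists_fixed_of_pow (tr_tree φ) (adj_smul φ) (fun v => v.isLeft = true)
    (by
      rintro u v ⟨e, he⟩
      rcases he with ⟨rfl, rfl⟩ | ⟨rfl, rfl⟩
      · unfold src tgt; simp
      · unfold src tgt; simp)
    (by
      rintro g (v | v)
      · exact Iff.rfl
      · exact Iff.rfl) g k hk v hv'
  rcases z with c | ⟨i, c⟩
  · left
    induction c using QuotientGroup.induction_on with
    | _ a =>
      have h1 : (QuotientGroup.mk (g * a) : PushoutI φ ⧸ BB φ) = QuotientGroup.mk a :=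
        Sum.inl_injective hz
      rw [eq_comm, QuotientGroup.eq] at h1
      obtain ⟨h, hh⟩ := h1
      exact ⟨h, isConj_iff.2 ⟨a⁻¹, by rw [hh]; group⟩⟩
  · right
    induction c using QuotientGroup.induction_on with
    | _ a =>
      have h1 : (⟨i, QuotientGroup.mk (g * a)⟩ : Σ i : ι, PushoutI φ ⧸ SI φ i) =
        ⟨i, QuotientGroup.mk a⟩ := Sum.inr_injective hz
      have h2 : (QuotientGroup.mk (g * a) : PushoutI φ ⧸ SI φ i) = QuotientGroup.mk a :=
        eq_of_heq (Sigma.mk.inj h1).2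
      rw [eq_comm, QuotientGroup.eq] at h2
      obtain ⟨x, hx⟩ := h2
      exact ⟨i, x, isConj_iff.2 ⟨a⁻¹, by rw [hx]; group⟩⟩

end Pool.Agent.H92.Am
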