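import Pool.Agent.H92.Am.Sep
import Pool.Agent.H92.Am.Amal

set_option autoImplicit false

/-!
The Bass trace conjecture for amalgamated products over a common retract.
-/

namespace Pool.Agent.H92.Am

open MonoidAlgebra
open Monoid (PushoutI)
open Pool.Agent.H23R2.Cyc (tf tf_apply)
open Pool.Agent.H26R2.Bass
open Pool.Agent.Y75.BF (InfOrd NoPow good_of_noPower)

universe u v

theorem infOrd_conj {G : Type v} [Group G] {a b : G} (h : IsConj a b) (ha : InfOrd a) :
    InfOrd b := by
  obtain ⟨c, rfl⟩ := isConj_iff.1 h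
  intro n hn h1
  apply ha n hn
  rw [conj_pow] at h1
  have h2 : a ^ n = c⁻¹ * (c * a ^ n * c⁻¹) * c := by group
  rw [h2, h1]
  group

theorem infOrd_of_map {G : Type v} {Q : Type u} [Group G] [Group Q] (f : G →* Q) {a : G}
    (ha : InfOrd (f a)) : InfOrd a := by
  intro n hn h1
  apply ha n hn
  rw [← map_pow, h1, map_one]

theorem ind_eq {R : Type u} [CommRing R] {G : Type v} [Group G] {a b : G} (h : IsConj a b) :
    ind R a = ind R b := by
  funext x
  unfold ind
  by_cases h1 : IsConj x a
  · rw [if_pos h1, if_pos (h1.trans h)]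
  · rw [if_neg h1, if_neg (fun h2 => h1 (h2.trans h.symm))]

/-- elements of infinite order with nonzero rank are conjugate to proper powers -/
theorem exists_pow {R : Type u} [CommRing R] [IsDomain R] {G : Type v} [Group G] {n : ℕ}
    (A : Matrix (Fin n) (Fin n) (MonoidAlgebra R G)) (hA : A * A = A) (g : G)
    (hg : tf (ind R g) A ≠ 0) : ∃ m : ℕ, 2 ≤ m ∧ IsConj g (g ^ m) := by
  by_contra hcon
  push Not at hcon
  exact hg (tf_zero_of_good A hA g (good_of_noPower g hcon))

section

variable {ι : Type v} {G : ι → Type v} {H : Type v} [∀ i, Group (G i)] [Group H]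
  (φ : ∀ i, H →* G i) (ρ : ∀ i, G i →* H) (hρ : ∀ i, (ρ i).comp (φ i) = MonoidHom.id H)

/-- the retraction onto the base -/
def rH : PushoutI φ →* H := PushoutI.lift ρ (MonoidHom.id H) hρ

theorem rH_of (i : ι) (x : G i) : rH φ ρ hρ (PushoutI.of i x) = ρ i x := by
  unfold rH
  rw [PushoutI.lift_of]

theorem rH_base (h : H) : rH φ ρ hρ (PushoutI.base φ h) = h := by
  unfold rH
  rw [PushoutI.lift_base]
  rfl

open Classical in
/-- the homomorphisms between the factors -/
noncomputable def ff (i j : ι) : G j →* G i :=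
  if h : j = i then h ▸ MonoidHom.id (G j) else (φ i).comp (ρ j)

theorem ff_self (i : ι) : ff φ ρ i i = MonoidHom.id (G i) := by
  unfold ff
  rw [dif_pos rfl]

theorem ff_ne (i j : ι) (h : j ≠ i) : ff φ ρ i j = (φ i).comp (ρ j) := by
  unfold ff
  rw [dif_neg h]

include hρ in
theorem ff_comp (i j : ι) : (ff φ ρ i j).comp (φ j) = φ i := by
  by_cases h : j = i
  · subst h
    rw [ff_self, MonoidHom.id_comp]
  · rw [ff_ne φ ρ i j h, MonoidHom.comp_assoc, hρ, MonoidHom.comp_id]

/-- the retraction onto a factor -/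
noncomputable def rI (i : ι) : PushoutI φ →* G i :=
  PushoutI.lift (ff φ ρ i) (φ i) (ff_comp φ ρ hρ i)

theorem rI_self (i : ι) (x : G i) : rI φ ρ hρ i (PushoutI.of i x) = x := by
  unfold rI
  rw [PushoutI.lift_of, ff_self]
  rfl

theorem rI_ne (i j : ι) (h : j ≠ i) (x : G j) :
    rI φ ρ hρ i (PushoutI.of j x) = φ i (ρ j x) := by
  unfold rI
  rw [PushoutI.lift_of, ff_ne φ ρ i j h]
  rfl

theorem rI_base (i : ι) (h : H) : rI φ ρ hρ i (PushoutI.base φ h) = φ i h := by
  unfold rI
  rw [PushoutI.lift_base]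

include ρ hρ in
/-- **Amalgamated products over a common retract.** -/
theorem bass_amal (R : Type u) [CommRing R] [IsDomain R] [Nonempty ι]
    (hG : ∀ i, BassFor R (G i)) : BassFor R (PushoutI φ) := by
  have hH : BassFor R H := by
    obtain ⟨i⟩ := (inferInstance : Nonempty ι)
    exact bass_retract (φ i) (ρ i) (hρ i) (hG i)
  intro n A hA g hg
  have hA' : A * A = A := hA
  change tau A g = 0
  rw [tau_eq]
  by_cases hfin : orderOf g = 0
  swap
  · exact tf_zero_of_finite A hA' g hfin hg
  -- the factors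
  have key1 : ∀ (i : ι) (x : G i), InfOrd x → (∀ c : H, ¬ IsConj (PushoutI.of i x)
      (PushoutI.base φ c)) → tf (ind R (PushoutI.of i x : PushoutI φ)) A = 0 := by
    intro i x hx hno
    refine tf_zero_of_sep (hG i) (rI φ ρ hρ i) A hA' _ (by rwa [rI_self]) ?_
    intro h hne hconj
    rw [rI_self] at hconj
    obtain ⟨m, hm, hpow⟩ := exists_pow A hA' h hne
    rcases elliptic φ h m hm hpow with ⟨c, hc⟩ | ⟨j, y, hy⟩
    · exfalso
      apply hno c
      have h1 := MonoidHom.map_isConj (rI φ ρ hρ i) hc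
      rw [rI_base] at h1
      have h2 := MonoidHom.map_isConj (PushoutI.of (φ := φ) i) (hconj.symm.trans h1)
      rwa [PushoutI.of_apply_eq_base] at h2
    · have h1 := MonoidHom.map_isConj (rI φ ρ hρ i) hy
      by_cases hji : j = i
      · subst hji
        rw [rI_self] at h1
        exact hy.trans (MonoidHom.map_isConj (PushoutI.of (φ := φ) j) (h1.symm.trans hconj))
      · exfalso
        rw [rI_ne φ ρ hρ i j hji] at h1
        apply hno (ρ j y)
        have h2 := MonoidHom.map_isConj (PushoutI.of (φ := φ) i) (hconj.symm.trans h1)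
        rwa [PushoutI.of_apply_eq_base] at h2
  -- the base
  have key2 : ∀ c : H, InfOrd c → tf (ind R (PushoutI.base φ c)) A = 0 := by
    intro c hc
    refine tf_zero_of_sep hH (rH φ ρ hρ) A hA' _ (by rwa [rH_base]) ?_
    intro h hne hconj
    rw [rH_base] at hconj
    obtain ⟨m, hm, hpow⟩ := exists_pow A hA' h hne
    have h3 : ∃ d : H, IsConj h (PushoutI.base φ d) := by
      rcases elliptic φ h m hm hpow with hd | ⟨j, y, hy⟩
      · exact hd
      · by_contra hcon
        push Not at hcon
        apply hne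
        rw [ind_eq hy]
        apply key1
        · apply infOrd_of_map (ρ j)
          have h1 := MonoidHom.map_isConj (rH φ ρ hρ) hy
          rw [rH_of] at h1
          exact infOrd_conj (hconj.symm.trans h1) hc
        · exact fun d hd => hcon d (hy.trans hd)
    obtain ⟨d, hd⟩ := h3
    have h1 := MonoidHom.map_isConj (rH φ ρ hρ) hd
    rw [rH_base] at h1
    exact hd.trans (MonoidHom.map_isConj (PushoutI.base φ) (h1.symm.trans hconj))
  by_contra hne
  have hinf : InfOrd g := orderOf_eq_zero_iff'.1 hfin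
  obtain ⟨m, hm, hpow⟩ := exists_pow A hA' g hne
  have hbase : ∀ c : H, ¬ IsConj g (PushoutI.base φ c) := by
    intro c hc
    apply hne
    rw [ind_eq hc]
    exact key2 c (infOrd_of_map _ (infOrd_conj hc hinf))
  rcases elliptic φ g m hm hpow with ⟨c, hc⟩ | ⟨i, x, hx⟩
  · exact hbase c hc
  · apply hne
    rw [ind_eq hx]
    exact key1 i x (infOrd_of_map _ (infOrd_conj hx hinf)) (fun c hc => hbase c (hx.trans hc))

end

end Pool.Agent.H92.Am
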