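import Pool.Agent.H92.Am.Tree
import Pool.Agent.Y75.BF.Emb

set_option autoImplicit false

/-!
The tree of a splitting given by a crossed homomorphism.
-/

namespace Pool.Agent.H92.Am

open Finsupp
open Pool.Agent.Y75.BF.Gr (Sd sd_mul sd_one sd_inv sdG ac ac_single ac_one ac_mul bd bd_single bd_ac
  Dat exists_chain fixed_chain exists_fixed deg deg_single deg_bd)

universe u

/-- A group generated by subgroups `S i` containing `B`, with a crossed homomorphism to the chains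
of the graph with vertices `P / B`, `P / S i`. -/
structure Spl (P : Type u) [Group P] (ι : Type u) where
  /-- the edge group -/
  B : Subgroup P
  /-- the vertex groups -/
  S : ι → Subgroup P
  le : ∀ i, B ≤ S i
  /-- the crossed homomorphism -/
  mag : P →* Sd P (Σ _ : ι, P ⧸ B)
  mag_g : ∀ g, (mag g).g = g
  cB : ∀ b ∈ B, (mag b).m = 0
  cS : ∀ i, ∀ s ∈ S i, (mag s).m = single ⟨i, QuotientGroup.mk 1⟩ 1 - single ⟨i, QuotientGroup.mk s⟩ 1
  gen : ∀ p : P → Prop, (∀ i, ∀ s ∈ S i, p s) → (∀ b ∈ B, p b) → (∀ a b, p a → p b → p (a * b)) →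
    ∀ g, p g

namespace Spl

variable {P : Type u} [Group P] {ι : Type u} (D : Spl P ι)

/-- the edges -/
abbrev Ed : Type u := Σ _ : ι, P ⧸ D.B

/-- the vertices -/
abbrev Ve : Type u := (P ⧸ D.B) ⊕ (Σ i : ι, P ⧸ D.S i)

/-- the source -/
def src (e : D.Ed) : D.Ve := Sum.inl e.2

/-- the target -/
def tgt (e : D.Ed) : D.Ve := Sum.inr ⟨e.1, Subgroup.quotientMapOfLE (D.le e.1) e.2⟩

theorem src_smul (g : P) (e : D.Ed) : D.src (g • e) = g • D.src e := rfl

theorem tgt_smul (g : P) (e : D.Ed) : D.tgt (g • e) = g • D.tgt e := by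
  obtain ⟨i, c⟩ := e
  induction c using QuotientGroup.induction_on with
  | _ a => rfl

/-- an edge -/
def ed (i : ι) (g : P) : D.Ed := ⟨i, QuotientGroup.mk g⟩

theorem ed_smul (i : ι) (g h : P) : g • D.ed i h = D.ed i (g * h) := rfl

/-- the crossed homomorphism -/
noncomputable def cc (g : P) : D.Ed →₀ ℤ := (D.mag g).m

theorem cc_mul (a b : P) : D.cc (a * b) = D.cc a + ac a (D.cc b) := by
  unfold cc
  rw [map_mul, sd_mul, D.mag_g]

theorem cc_S (i : ι) (x : P) (hx : x ∈ D.S i) :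
    D.cc x = single (D.ed i 1) 1 - single (D.ed i x) 1 := D.cS i x hx

theorem cc_B (x : P) (hx : x ∈ D.B) : D.cc x = 0 := D.cB x hx

theorem src_ed (i : ι) (g : P) : D.src (D.ed i g) = Sum.inl (QuotientGroup.mk g) := rfl

theorem tgt_ed (i : ι) (g : P) : D.tgt (D.ed i g) = Sum.inr ⟨i, QuotientGroup.mk g⟩ := rfl

/-- the base vertex -/
def v0 : D.Ve := Sum.inl (QuotientGroup.mk 1)

theorem smul_v0 (g : P) : g • D.v0 = Sum.inl (QuotientGroup.mk g) := by
  change (Sum.inl (QuotientGroup.mk (g * 1)) : D.Ve) = _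
  rw [mul_one]

theorem tgt_mul (i : ι) (g x : P) (hx : x ∈ D.S i) :
    D.tgt (D.ed i (g * x)) = D.tgt (D.ed i g) := by
  rw [tgt_ed, tgt_ed]
  congr 2
  rw [QuotientGroup.eq]
  have h1 : (g * x)⁻¹ * g = x⁻¹ := by group
  rw [h1]
  exact inv_mem hx

theorem mk_mul (g x : P) (hx : x ∈ D.B) :
    (Sum.inl (QuotientGroup.mk (g * x)) : D.Ve) = Sum.inl (QuotientGroup.mk g) := by
  congr 1
  rw [QuotientGroup.eq]
  have h1 : (g * x)⁻¹ * g = x⁻¹ := by group
  rw [h1]
  exact inv_mem hx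

theorem bd_cc (g : P) : bd D.src D.tgt (D.cc g) = single (g • D.v0) 1 - single D.v0 1 := by
  refine D.gen (fun g => bd D.src D.tgt (D.cc g) = single (g • D.v0) 1 - single D.v0 1) ?_ ?_ ?_ g
  · intro i x hx
    have h1 := D.tgt_mul i 1 x hx
    rw [one_mul] at h1
    rw [D.cc_S i x hx, map_sub, bd_single, bd_single, src_ed, src_ed, h1, smul_v0]
    change _ = _ - single (Sum.inl (QuotientGroup.mk 1)) (1 : ℤ)
    abel
  · intro x hx
    have h1 := D.mk_mul 1 x hx
    rw [one_mul] at h1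
    rw [D.cc_B x hx, map_zero, smul_v0, h1]
    exact (sub_self _).symm
  · intro a b ha hb
    rw [cc_mul, map_add, bd_ac D.src_smul D.tgt_smul, ha, hb, map_sub, ac_single, ac_single,
      mul_smul]
    abel

/-- the data -/
noncomputable def dat : Dat P D.Ve D.Ed P where
  s := D.src
  t := D.tgt
  s_smul := D.src_smul
  t_smul := D.tgt_smul
  v0 := D.v0
  γ := MonoidHom.id _
  c := D.cc
  mul := D.cc_mul
  del := D.bd_cc
  inj _ hg _ := hg

/-! ### the tree -/

/-- the graph -/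
def Tr : SimpleGraph D.Ve where
  Adj u v := ∃ e : D.Ed, (D.src e = u ∧ D.tgt e = v) ∨ (D.src e = v ∧ D.tgt e = u)
  symm := ⟨fun _ _ ⟨e, he⟩ => ⟨e, he.symm⟩⟩
  loopless := ⟨fun u ⟨e, he⟩ => by
    rcases he with ⟨h1, h2⟩ | ⟨h1, h2⟩
    · exact absurd (h1.trans h2.symm) (by unfold src tgt; simp)
    · exact absurd (h1.trans h2.symm) (by unfold src tgt; simp)⟩

theorem adj_smul (g : P) (u v : D.Ve) (h : D.Tr.Adj u v) : D.Tr.Adj (g • u) (g • v) := by
  obtain ⟨e, he⟩ := h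
  refine ⟨g • e, ?_⟩
  rw [src_smul, tgt_smul]
  rcases he with ⟨rfl, rfl⟩ | ⟨rfl, rfl⟩
  · exact Or.inl ⟨rfl, rfl⟩
  · exact Or.inr ⟨rfl, rfl⟩

theorem reach_smul (g : P) (u v : D.Ve) (h : D.Tr.Reachable u v) :
    D.Tr.Reachable (g • u) (g • v) := by
  let f : D.Tr →g D.Tr := ⟨fun x => g • x, fun {a b} h => D.adj_smul g a b h⟩
  exact h.map f

theorem reach_v0 (g : P) : D.Tr.Reachable D.v0 (g • D.v0) := by
  refine D.gen (fun g => D.Tr.Reachable D.v0 (g • D.v0)) ?_ ?_ ?_ g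
  · intro i x hx
    have h1 : D.Tr.Adj D.v0 (D.tgt (D.ed i 1)) := ⟨D.ed i 1, Or.inl ⟨rfl, rfl⟩⟩
    have h2 : D.Tr.Adj (x • D.v0) (D.tgt (D.ed i 1)) :=
      ⟨D.ed i x, Or.inl ⟨by rw [src_ed, smul_v0], by
        have h1 := D.tgt_mul i 1 x hx
        rwa [one_mul] at h1⟩⟩
    exact h1.reachable.trans h2.symm.reachable
  · intro x hx
    have h1 := D.mk_mul 1 x hx
    rw [one_mul] at h1
    change D.Tr.Reachable D.v0 (x • D.v0)
    rw [smul_v0, h1]
    exact SimpleGraph.Reachable.refl _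
  · intro a b ha hb
    change D.Tr.Reachable D.v0 ((a * b) • D.v0)
    rw [mul_smul]
    exact ha.trans (D.reach_smul a _ _ hb)

theorem tr_connected : D.Tr.Connected := by
  have h1 : ∀ v : D.Ve, D.Tr.Reachable D.v0 v := by
    intro v
    rcases v with c | ⟨i, c⟩
    · induction c using QuotientGroup.induction_on with
      | _ g =>
        rw [← smul_v0]
        exact D.reach_v0 g
    · induction c using QuotientGroup.induction_on with
      | _ g =>
        refine (D.reach_v0 g).trans (SimpleGraph.Adj.reachable ?_)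
        exact ⟨D.ed i g, Or.inl ⟨by rw [src_ed, smul_v0], rfl⟩⟩
  have : Nonempty D.Ve := ⟨D.v0⟩
  exact SimpleGraph.Connected.mk fun u v => (h1 u).symm.trans (h1 v)

/-- the potential of a vertex -/
noncomputable def pp (v : D.Ve) : D.Ed →₀ ℤ :=
  match v with
  | Sum.inl c => D.cc c.out
  | Sum.inr ⟨i, c⟩ => D.cc c.out + single (D.ed i c.out) 1

theorem pp_inl (g : P) : D.pp (Sum.inl (QuotientGroup.mk g)) = D.cc g := by
  obtain ⟨y, hy⟩ : ∃ y, y = (QuotientGroup.mk g : P ⧸ D.B).out := ⟨_, rfl⟩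
  have h1 : (QuotientGroup.mk (QuotientGroup.mk g : P ⧸ D.B).out : P ⧸ D.B) =
      QuotientGroup.mk g := Quotient.out_eq' _
  rw [QuotientGroup.eq, ← hy] at h1
  have h2 : g = y * (y⁻¹ * g) := by group
  change D.cc (QuotientGroup.mk g : P ⧸ D.B).out = _
  rw [← hy]
  conv_rhs => rw [h2]
  rw [cc_mul, D.cc_B _ h1, map_zero, add_zero]

theorem pp_inr (i : ι) (g : P) :
    D.pp (Sum.inr ⟨i, QuotientGroup.mk g⟩) = D.cc g + single (D.ed i g) 1 := by
  obtain ⟨y, hy⟩ : ∃ y, y = (QuotientGroup.mk g : P ⧸ D.S i).out := ⟨_, rfl⟩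
  have h1 : (QuotientGroup.mk (QuotientGroup.mk g : P ⧸ D.S i).out : P ⧸ D.S i) =
      QuotientGroup.mk g := Quotient.out_eq' _
  rw [QuotientGroup.eq, ← hy] at h1
  obtain ⟨x, hx⟩ : ∃ x, x = y⁻¹ * g := ⟨_, rfl⟩
  rw [← hx] at h1
  have h2 : g = y * x := by rw [hx]; group
  change D.cc (QuotientGroup.mk g : P ⧸ D.S i).out +
    single (D.ed i (QuotientGroup.mk g : P ⧸ D.S i).out) 1 = _
  rw [← hy, h2, cc_mul, D.cc_S i x h1, map_sub, ac_single, ac_single, ed_smul, ed_smul, mul_one]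
  abel

theorem pp_edge (e : D.Ed) : D.pp (D.tgt e) = D.pp (D.src e) + single e 1 := by
  obtain ⟨i, c⟩ := e
  induction c using QuotientGroup.induction_on with
  | _ g =>
    change D.pp (Sum.inr ⟨i, QuotientGroup.mk g⟩) = D.pp (Sum.inl (QuotientGroup.mk g)) +
      single (D.ed i g) 1
    rw [pp_inr, pp_inl]

theorem tr_tree : D.Tr.IsTree := by
  classical
  refine ⟨D.tr_connected, ?_⟩
  rw [SimpleGraph.isAcyclic_iff_forall_adj_isBridge]
  intro u v huv
  obtain ⟨e, he⟩ := huv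
  rw [SimpleGraph.isBridge_iff]
  intro hr
  have key : ∀ a b : D.Ve, (D.Tr.deleteEdges {s(u, v)}).Adj a b → D.pp a e = D.pp b e := by
    intro a b hab
    rw [SimpleGraph.deleteEdges_adj] at hab
    obtain ⟨⟨e', he'⟩, hn⟩ := hab
    have hne : e' ≠ e := by
      rintro rfl
      apply hn
      rw [Set.mem_singleton_iff]
      rcases he with ⟨rfl, rfl⟩ | ⟨rfl, rfl⟩ <;> rcases he' with ⟨rfl, rfl⟩ | ⟨rfl, rfl⟩
      · rfl
      · exact Sym2.eq_swap
      · exact Sym2.eq_swap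
      · rfl
    have h1 : D.pp (D.tgt e') e = D.pp (D.src e') e := by
      rw [pp_edge, Finsupp.add_apply, Finsupp.single_eq_of_ne (Ne.symm hne), add_zero]
    rcases he' with ⟨rfl, rfl⟩ | ⟨rfl, rfl⟩
    · exact h1.symm
    · exact h1
  have h2 : ∀ a b : D.Ve, (D.Tr.deleteEdges {s(u, v)}).Reachable a b → D.pp a e = D.pp b e := by
    rintro a b ⟨p⟩
    induction p with
    | nil => rfl
    | cons h _ ih => exact (key _ _ h).trans ih
  have h3 := h2 u v hr
  have h4 : D.pp (D.tgt e) e = D.pp (D.src e) e + 1 := by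
    rw [pp_edge, Finsupp.add_apply, Finsupp.single_eq_same]
  rcases he with ⟨rfl, rfl⟩ | ⟨rfl, rfl⟩ <;> omega

/-- elements conjugate to proper powers are conjugate to elements of the vertex groups -/
theorem elliptic (g : P) (m : ℕ) (hm : 2 ≤ m) (hg : IsConj g (g ^ m)) :
    (∃ b ∈ D.B, IsConj g b) ∨ ∃ i, ∃ s ∈ D.S i, IsConj g s := by
  obtain ⟨y, hy⟩ := isConj_iff.1 hg
  obtain ⟨w, hw⟩ := exists_chain D.dat g y m hm hy
  have hu := fixed_chain D.dat g w hw
  have hdeg : deg D.Ve (bd D.dat.s D.dat.t w - single D.dat.v0 1) = -1 := by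
    rw [map_sub, deg_bd, deg_single, zero_sub]
  have hne : bd D.dat.s D.dat.t w - single D.dat.v0 1 ≠ 0 := by
    intro h0
    rw [h0, map_zero] at hdeg
    exact absurd hdeg (by norm_num)
  obtain ⟨v, k, hk, hv⟩ := exists_fixed _ _ hu hne
  have hv' : g ^ k • v = v := hv
  obtain ⟨z, hz⟩ := exists_fixed_of_pow D.tr_tree D.adj_smul (fun v => v.isLeft = true)
    (by
      rintro u v ⟨e, he⟩
      rcases he with ⟨rfl, rfl⟩ | ⟨rfl, rfl⟩
      · unfold src tgt; simp
      · unfold src tgt; simp)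
    (by
      rintro g (v | v)
      · exact Iff.rfl
      · exact Iff.rfl) g k hk v hv'
  rcases z with c | ⟨i, c⟩
  · left
    induction c using QuotientGroup.induction_on with
    | _ a =>
      have h1 : (QuotientGroup.mk (g * a) : P ⧸ D.B) = QuotientGroup.mk a :=
        Sum.inl_injective hz
      rw [eq_comm, QuotientGroup.eq] at h1
      exact ⟨_, h1, isConj_iff.2 ⟨a⁻¹, by group⟩⟩
  · right
    induction c using QuotientGroup.induction_on with
    | _ a =>
      have h1 : (⟨i, QuotientGroup.mk (g * a)⟩ : Σ i : ι, P ⧸ D.S i) =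
        ⟨i, QuotientGroup.mk a⟩ := Sum.inr_injective hz
      have h2 : (QuotientGroup.mk (g * a) : P ⧸ D.S i) = QuotientGroup.mk a :=
        eq_of_heq (Sigma.mk.inj h1).2
      rw [eq_comm, QuotientGroup.eq] at h2
      exact ⟨i, _, h2, isConj_iff.2 ⟨a⁻¹, by group⟩⟩

end Spl

end Pool.Agent.H92.Am
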