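import Pool.Agent.H92.Am.GPDefs
import Pool.Agent.H92.Am.Spl

set_option autoImplicit false

/-!
Graph products: parabolic subgroups, retractions, splittings.
-/

namespace Pool.Agent.H92.Am

open Monoid (PushoutI)
open Finsupp
open Pool.Agent.Y75.BF.Gr (Sd sd_mul sd_one ac ac_single ac_one ac_mul)

universe u w

section

variable {V : Type u} (Γ : SimpleGraph V) {C : Type u} [Group C] {G : V → Type u}
  [∀ v, Group (G v)] (φ : ∀ v, C →* G v) (ρ : ∀ v, G v →* C)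

namespace GProd

/-- the projection -/
def pr : PushoutI φ →* GProd Γ φ ρ := QuotientGroup.mk' _

/-- the factors -/
def of (v : V) : G v →* GProd Γ φ ρ := (pr Γ φ ρ).comp (PushoutI.of v)

/-- the base -/
def base : C →* GProd Γ φ ρ := (pr Γ φ ρ).comp (PushoutI.base φ)

theorem of_base (v : V) (c : C) : of Γ φ ρ v (φ v c) = base Γ φ ρ c := by
  unfold of base
  rw [MonoidHom.comp_apply, MonoidHom.comp_apply, PushoutI.of_apply_eq_base]

theorem comm (v w : V) (a : G v) (b : G w) (h : Γ.Adj v w) (ha : ρ v a = 1) (hb : ρ w b = 1) :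
    Commute (of Γ φ ρ v a) (of Γ φ ρ w b) := by
  have h1 : pr Γ φ ρ ((PushoutI.of v a : PushoutI φ) * PushoutI.of w b *
      (PushoutI.of v a)⁻¹ * (PushoutI.of w b)⁻¹) = 1 :=
    (QuotientGroup.eq_one_iff _).2
      (Subgroup.subset_normalClosure ⟨v, w, a, b, h, ha, hb, rfl⟩)
  rw [map_mul, map_mul, map_mul, map_inv, map_inv, mul_inv_eq_one, mul_inv_eq_iff_eq_mul] at h1
  exact h1

section lift

variable {K : Type w} [Group K] (f : ∀ v, G v →* K) (k : C →* K)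
  (hf : ∀ v, (f v).comp (φ v) = k)
  (hc : ∀ v w, Γ.Adj v w → ∀ a b, ρ v a = 1 → ρ w b = 1 → Commute (f v a) (f w b))

/-- the universal property -/
def lift : GProd Γ φ ρ →* K :=
  QuotientGroup.lift _ (PushoutI.lift f k hf) (by
    have h1 : Subgroup.normalClosure (Rels Γ φ ρ) ≤ (PushoutI.lift f k hf).ker := by
      apply Subgroup.normalClosure_le_normal
      rintro _ ⟨v, w, a, b, h, ha, hb, rfl⟩
      rw [SetLike.mem_coe, MonoidHom.mem_ker, map_mul, map_mul, map_mul, map_inv, map_inv,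
        PushoutI.lift_of, PushoutI.lift_of, mul_inv_eq_one, mul_inv_eq_iff_eq_mul]
      exact hc v w h a b ha hb
    exact fun x hx => h1 hx)

theorem lift_of (v : V) (x : G v) : lift Γ φ ρ f k hf hc (of Γ φ ρ v x) = f v x := by
  change PushoutI.lift f k hf (PushoutI.of v x) = f v x
  rw [PushoutI.lift_of]

theorem lift_base (c : C) : lift Γ φ ρ f k hf hc (base Γ φ ρ c) = k c := by
  change PushoutI.lift f k hf (PushoutI.base φ c) = k c
  rw [PushoutI.lift_base]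

end lift

theorem ind {p : GProd Γ φ ρ → Prop} (hof : ∀ v x, p (of Γ φ ρ v x))
    (hbase : ∀ c, p (base Γ φ ρ c)) (hmul : ∀ a b, p a → p b → p (a * b)) (g : GProd Γ φ ρ) :
    p g := by
  obtain ⟨g, rfl⟩ := QuotientGroup.mk'_surjective _ g
  induction g using PushoutI.induction_on with
  | of i x => exact hof i x
  | base c => exact hbase c
  | mul a b ha hb => rw [map_mul]; exact hmul _ _ ha hb

theorem hom_ext {K : Type w} [Group K] {f g : GProd Γ φ ρ →* K}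
    (h1 : ∀ v x, f (of Γ φ ρ v x) = g (of Γ φ ρ v x))
    (h2 : ∀ c, f (base Γ φ ρ c) = g (base Γ φ ρ c)) : f = g := by
  refine MonoidHom.ext fun x => ?_
  refine ind Γ φ ρ (p := fun x => f x = g x) h1 h2 ?_ x
  intro a b ha hb
  rw [map_mul, map_mul, ha, hb]

end GProd

open GProd

variable (hρ : ∀ v, (ρ v).comp (φ v) = MonoidHom.id C)

include hρ in
theorem rho_phi (v : V) (c : C) : ρ v (φ v c) = c := DFunLike.congr_fun (hρ v) c

open Classical in
/-- the retraction onto a parabolic subgroup -/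
noncomputable def qq (F : Set V) : GProd Γ φ ρ →* GProd Γ φ ρ :=
  lift Γ φ ρ (fun v => if v ∈ F then of Γ φ ρ v else (base Γ φ ρ).comp (ρ v)) (base Γ φ ρ)
    (by
      intro v
      refine MonoidHom.ext fun c => ?_
      split_ifs with h
      · exact of_base Γ φ ρ v c
      · change base Γ φ ρ (ρ v (φ v c)) = _
        rw [rho_phi φ ρ hρ])
    (by
      intro v w h a b ha hb
      by_cases hv : v ∈ F
      · by_cases hw : w ∈ F
        · rw [if_pos hv, if_pos hw]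
          exact comm Γ φ ρ v w a b h ha hb
        · rw [if_neg hw]
          change Commute _ (base Γ φ ρ (ρ w b))
          rw [hb, map_one]
          exact Commute.one_right _
      · rw [if_neg hv]
        change Commute (base Γ φ ρ (ρ v a)) _
        rw [ha, map_one]
        exact Commute.one_left _)

theorem qq_of {F : Set V} {v : V} (hv : v ∈ F) (x : G v) :
    qq Γ φ ρ hρ F (of Γ φ ρ v x) = of Γ φ ρ v x := by
  unfold qq
  rw [lift_of, if_pos hv]

theorem qq_of_not {F : Set V} {v : V} (hv : v ∉ F) (x : G v) :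
    qq Γ φ ρ hρ F (of Γ φ ρ v x) = base Γ φ ρ (ρ v x) := by
  unfold qq
  rw [lift_of, if_neg hv]
  rfl

theorem qq_base (F : Set V) (c : C) : qq Γ φ ρ hρ F (base Γ φ ρ c) = base Γ φ ρ c := by
  unfold qq
  rw [lift_base]

theorem qq_qq (F F' : Set V) (g : GProd Γ φ ρ) :
    qq Γ φ ρ hρ F (qq Γ φ ρ hρ F' g) = qq Γ φ ρ hρ (F ∩ F') g := by
  have h : (qq Γ φ ρ hρ F).comp (qq Γ φ ρ hρ F') = qq Γ φ ρ hρ (F ∩ F') := by
    apply hom_ext
    · intro v x
      rw [MonoidHom.comp_apply]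
      by_cases h' : v ∈ F'
      · rw [qq_of Γ φ ρ hρ h']
        by_cases h : v ∈ F
        · rw [qq_of Γ φ ρ hρ h, qq_of Γ φ ρ hρ (Set.mem_inter h h')]
        · rw [qq_of_not Γ φ ρ hρ h, qq_of_not Γ φ ρ hρ (fun h1 => h h1.1)]
      · rw [qq_of_not Γ φ ρ hρ h', qq_base, qq_of_not Γ φ ρ hρ (fun h1 => h' h1.2)]
    · intro c
      rw [MonoidHom.comp_apply, qq_base, qq_base, qq_base]
  exact DFunLike.congr_fun h g

/-- the parabolic subgroup -/
noncomputable def SF (F : Set V) : Subgroup (GProd Γ φ ρ) :=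
  (qq Γ φ ρ hρ F).eqLocus (MonoidHom.id _)

theorem mem_SF (F : Set V) (g : GProd Γ φ ρ) : g ∈ SF Γ φ ρ hρ F ↔ qq Γ φ ρ hρ F g = g := Iff.rfl

theorem of_mem {F : Set V} {v : V} (hv : v ∈ F) (x : G v) :
    of Γ φ ρ v x ∈ SF Γ φ ρ hρ F := qq_of Γ φ ρ hρ hv x

theorem base_mem (F : Set V) (c : C) : base Γ φ ρ c ∈ SF Γ φ ρ hρ F := qq_base Γ φ ρ hρ F c

theorem qq_mem (F : Set V) {F' : Set V} {g : GProd Γ φ ρ} (hg : g ∈ SF Γ φ ρ hρ F') :
    qq Γ φ ρ hρ F g ∈ SF Γ φ ρ hρ (F ∩ F') := by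
  rw [mem_SF, qq_qq]
  rw [mem_SF] at hg
  conv_rhs => rw [← hg, qq_qq]
  congr 2
  ext x
  constructor
  · rintro ⟨⟨h1, h2⟩, -⟩
    exact ⟨h1, h2⟩
  · rintro ⟨h1, h2⟩
    exact ⟨⟨h1, h2⟩, h1⟩

theorem SF_mono {F F' : Set V} (h : F ⊆ F') : SF Γ φ ρ hρ F ≤ SF Γ φ ρ hρ F' := by
  intro g hg
  rw [mem_SF] at hg ⊢
  conv_lhs => rw [← hg, qq_qq]
  rw [Set.inter_eq_right.2 h, hg]

/-- induction on the elements of a parabolic subgroup -/
theorem SF_ind {F : Set V} {p : GProd Γ φ ρ → Prop} (hof : ∀ v ∈ F, ∀ x, p (of Γ φ ρ v x))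
    (hbase : ∀ c, p (base Γ φ ρ c)) (hmul : ∀ a b, p a → p b → p (a * b)) {g : GProd Γ φ ρ}
    (hg : g ∈ SF Γ φ ρ hρ F) : p g := by
  rw [mem_SF] at hg
  rw [← hg]
  refine ind Γ φ ρ (p := fun g => p (qq Γ φ ρ hρ F g)) ?_ ?_ ?_ g
  · intro v x
    by_cases h : v ∈ F
    · rw [qq_of Γ φ ρ hρ h]
      exact hof v h x
    · rw [qq_of_not Γ φ ρ hρ h]
      exact hbase _
  · intro c
    rw [qq_base]
    exact hbase c
  · intro a b ha hb
    rw [map_mul]
    exact hmul _ _ ha hb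

/-- every element lies in a finite parabolic subgroup -/
theorem exists_finite (g : GProd Γ φ ρ) : ∃ F : Finset V, g ∈ SF Γ φ ρ hρ (F : Set V) := by
  classical
  refine ind Γ φ ρ (p := fun g => ∃ F : Finset V, g ∈ SF Γ φ ρ hρ (F : Set V)) ?_ ?_ ?_ g
  · intro v x
    exact ⟨{v}, of_mem Γ φ ρ hρ (by simp) x⟩
  · intro c
    exact ⟨∅, base_mem Γ φ ρ hρ _ c⟩
  · rintro a b ⟨F, hF⟩ ⟨F', hF'⟩
    refine ⟨F ∪ F', mul_mem (SF_mono Γ φ ρ hρ ?_ hF) (SF_mono Γ φ ρ hρ ?_ hF')⟩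
    · rw [Finset.coe_union]; exact Set.subset_union_left
    · rw [Finset.coe_union]; exact Set.subset_union_right

/-! ### the splitting at a vertex -/

section split

variable (v : V)

/-- the edge group -/
noncomputable def EB : Subgroup (GProd Γ φ ρ) := SF Γ φ ρ hρ (Γ.neighborSet v)

theorem base_memB (c : C) : base Γ φ ρ c ∈ EB Γ φ ρ hρ v := base_mem Γ φ ρ hρ _ c

theorem of_memB {w : V} (hw : w ∈ Γ.neighborSet v) (x : G w) : of Γ φ ρ w x ∈ EB Γ φ ρ hρ v :=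
  of_mem Γ φ ρ hρ hw x

/-- the vertex groups -/
noncomputable def ES (i : ULift.{u} Bool) : Subgroup (GProd Γ φ ρ) :=
  if i.down = true then SF Γ φ ρ hρ (insert v (Γ.neighborSet v)) else SF Γ φ ρ hρ {v}ᶜ

/-- the principal crossed homomorphisms -/
noncomputable def th {P : Type u} [Group P] (B : Subgroup P) {ι : Type u} (i : ι) :
    P →* Sd P (Σ _ : ι, P ⧸ B) where
  toFun x := ⟨single ⟨i, QuotientGroup.mk 1⟩ 1 - single ⟨i, QuotientGroup.mk x⟩ 1, x⟩
  map_one' := by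
    rw [sub_self]; rfl
  map_mul' := by
    intro a b
    rw [sd_mul]
    congr 1
    have h1 : ∀ c : P, ac a (single (⟨i, QuotientGroup.mk c⟩ : Σ _ : ι, P ⧸ B) (1 : ℤ)) =
        single ⟨i, QuotientGroup.mk (a * c)⟩ 1 := fun c => ac_single a _ _
    simp only [map_sub, h1, mul_one]
    abel

theorem th_apply {P : Type u} [Group P] (B : Subgroup P) {ι : Type u} (i : ι) (x : P) :
    th B i x = ⟨single ⟨i, QuotientGroup.mk 1⟩ 1 - single ⟨i, QuotientGroup.mk x⟩ 1, x⟩ := rfl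

theorem th_B {P : Type u} [Group P] (B : Subgroup P) {ι : Type u} (i : ι) (x : P) (hx : x ∈ B) :
    th B i x = ⟨0, x⟩ := by
  rw [th_apply]
  congr 1
  have h1 : (QuotientGroup.mk x : P ⧸ B) = QuotientGroup.mk 1 := by
    rw [QuotientGroup.eq, mul_one]
    exact inv_mem hx
  rw [h1, sub_self]

open Classical in
/-- the index of a factor -/
noncomputable def ix (w : V) : ULift.{u} Bool := if w = v then ⟨true⟩ else ⟨false⟩

/-- the crossed homomorphism -/
noncomputable def mg : GProd Γ φ ρ →*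
    Sd (GProd Γ φ ρ) (Σ _ : ULift.{u} Bool, GProd Γ φ ρ ⧸ EB Γ φ ρ hρ v) :=
  lift Γ φ ρ (fun w => (th (EB Γ φ ρ hρ v) (ix v w)).comp (of Γ φ ρ w))
    ((th (EB Γ φ ρ hρ v) ⟨true⟩).comp (base Γ φ ρ))
    (by
      intro w
      refine MonoidHom.ext fun c => ?_
      change th (EB Γ φ ρ hρ v) (ix v w) (of Γ φ ρ w (φ w c)) =
        th (EB Γ φ ρ hρ v) ⟨true⟩ (base Γ φ ρ c)
      rw [of_base, th_B _ _ _ (base_memB Γ φ ρ hρ v c), th_B _ _ _ (base_memB Γ φ ρ hρ v c)])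
    (by
      intro x y h a b ha hb
      have hcom := comm Γ φ ρ x y a b h ha hb
      change Commute (th (EB Γ φ ρ hρ v) (ix v x) (of Γ φ ρ x a))
        (th (EB Γ φ ρ hρ v) (ix v y) (of Γ φ ρ y b))
      by_cases hxy : ix v x = ix v y
      · rw [hxy]
        exact hcom.map _
      · -- one of the two is `v`
        by_cases hx : x = v
        · subst hx
          have hyB : of Γ φ ρ y b ∈ EB Γ φ ρ hρ x := of_mem Γ φ ρ hρ h b
          rw [th_B _ (ix x y) _ hyB, ← th_B _ (ix x x) _ hyB]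
          exact hcom.map _
        · have hy : y = v := by
            by_contra hy
            apply hxy
            unfold ix
            rw [if_neg hx, if_neg hy]
          subst hy
          have hxB : of Γ φ ρ x a ∈ EB Γ φ ρ hρ y := of_mem Γ φ ρ hρ h.symm a
          rw [th_B _ (ix y x) _ hxB, ← th_B _ (ix y y) _ hxB]
          exact hcom.map _)

theorem mg_of (w : V) (x : G w) : mg Γ φ ρ hρ v (of Γ φ ρ w x) =
    th (EB Γ φ ρ hρ v) (ix v w) (of Γ φ ρ w x) := by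
  unfold mg
  rw [lift_of]
  rfl

theorem mg_base (c : C) : mg Γ φ ρ hρ v (base Γ φ ρ c) =
    th (EB Γ φ ρ hρ v) ⟨true⟩ (base Γ φ ρ c) := by
  unfold mg
  rw [lift_base]
  rfl

theorem ES_true : ES Γ φ ρ hρ v ⟨true⟩ = SF Γ φ ρ hρ (insert v (Γ.neighborSet v)) := if_pos rfl

theorem ES_false : ES Γ φ ρ hρ v ⟨false⟩ = SF Γ φ ρ hρ {v}ᶜ := by
  unfold ES
  rw [if_neg (by simp)]

theorem mg_S (i : ULift.{u} Bool) (s : GProd Γ φ ρ) (hs : s ∈ ES Γ φ ρ hρ v i) :
    mg Γ φ ρ hρ v s = th (EB Γ φ ρ hρ v) i s := by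
  obtain ⟨b⟩ := i
  have hb : ∀ (i : ULift.{u} Bool) c, mg Γ φ ρ hρ v (base Γ φ ρ c) =
      th (EB Γ φ ρ hρ v) i (base Γ φ ρ c) := by
    intro i c
    rw [mg_base, th_B _ _ _ (base_memB Γ φ ρ hρ v c), th_B _ _ _ (base_memB Γ φ ρ hρ v c)]
  cases b with
  | false =>
    rw [ES_false] at hs
    refine SF_ind Γ φ ρ hρ (p := fun s => mg Γ φ ρ hρ v s = th (EB Γ φ ρ hρ v) ⟨false⟩ s)
      ?_ (hb _) ?_ hs
    · intro w hw x
      have h1 : ix v w = ⟨false⟩ := by
        unfold ix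
        exact if_neg hw
      change mg Γ φ ρ hρ v (of Γ φ ρ w x) = _
      rw [mg_of, h1]
    · intro a b ha hb
      rw [map_mul, map_mul, ha, hb]
  | true =>
    rw [ES_true] at hs
    refine SF_ind Γ φ ρ hρ (p := fun s => mg Γ φ ρ hρ v s = th (EB Γ φ ρ hρ v) ⟨true⟩ s)
      ?_ (hb _) ?_ hs
    · intro w hw x
      rw [mg_of]
      by_cases hwv : w = v
      · have h1 : ix v w = ⟨true⟩ := by
          unfold ix
          rw [if_pos hwv]
        rw [h1]
      · have hw' : w ∈ Γ.neighborSet v := by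
          rcases hw with h | h
          · exact absurd h hwv
          · exact h
        rw [th_B _ _ _ (of_memB Γ φ ρ hρ v hw' x), th_B _ _ _ (of_memB Γ φ ρ hρ v hw' x)]
    · intro a b ha hb
      rw [map_mul, map_mul, ha, hb]

/-- the splitting -/
noncomputable def spl : Spl (GProd Γ φ ρ) (ULift.{u} Bool) where
  B := EB Γ φ ρ hρ v
  S := ES Γ φ ρ hρ v
  le := by
    rintro ⟨b⟩
    cases b with
    | false =>
      rw [ES_false]
      apply SF_mono
      intro w hw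
      exact fun h => (SimpleGraph.Adj.ne hw) h.symm
    | true =>
      rw [ES_true]
      exact SF_mono Γ φ ρ hρ (Set.subset_insert _ _)
  mag := mg Γ φ ρ hρ v
  mag_g := by
    refine ind Γ φ ρ (p := fun g => (mg Γ φ ρ hρ v g).g = g) ?_ ?_ ?_
    · intro w x
      rw [mg_of]
      rfl
    · intro c
      rw [mg_base]
      rfl
    · intro a b ha hb
      rw [map_mul, sd_mul, ha, hb]
  cB := by
    intro b hb
    rw [mg_S Γ φ ρ hρ v ⟨true⟩ b (by
      rw [ES_true]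
      exact SF_mono Γ φ ρ hρ (Set.subset_insert _ _) hb), th_B _ _ _ hb]
  cS := by
    intro i s hs
    rw [mg_S Γ φ ρ hρ v i s hs]
    rfl
  gen := by
    intro p hS hB hmul g
    refine ind Γ φ ρ (p := p) ?_ ?_ hmul g
    · intro w x
      by_cases hwv : w = v
      · exact hS ⟨true⟩ _ (by
          rw [ES_true]
          exact of_mem Γ φ ρ hρ (Or.inl hwv) x)
      · exact hS ⟨false⟩ _ (by
          rw [ES_false]
          exact of_mem Γ φ ρ hρ hwv x)
    · intro c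
      exact hB _ (base_mem Γ φ ρ hρ _ c)

theorem elliptic_at (g : GProd Γ φ ρ) (m : ℕ) (hm : 2 ≤ m) (hg : IsConj g (g ^ m)) :
    (∃ s ∈ SF Γ φ ρ hρ {v}ᶜ, IsConj g s) ∨
      ∃ s ∈ SF Γ φ ρ hρ (insert v (Γ.neighborSet v)), IsConj g s := by
  rcases (spl Γ φ ρ hρ v).elliptic g m hm hg with ⟨b, hb, hgb⟩ | ⟨⟨i⟩, s, hs, hgs⟩
  · exact Or.inr ⟨b, SF_mono Γ φ ρ hρ (Set.subset_insert _ _) hb, hgb⟩
  · have hs' : s ∈ ES Γ φ ρ hρ v ⟨i⟩ := hs
    cases i with
    | false => rw [ES_false] at hs'; exact Or.inl ⟨s, hs', hgs⟩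
    | true => rw [ES_true] at hs'; exact Or.inr ⟨s, hs', hgs⟩

end split

/-- intersections of parabolic subgroups up to conjugation -/
theorem conj_inter {F F' : Set V} {s t : GProd Γ φ ρ} (hs : s ∈ SF Γ φ ρ hρ F)
    (ht : t ∈ SF Γ φ ρ hρ F') (h : IsConj s t) :
    ∃ r ∈ SF Γ φ ρ hρ (F ∩ F'), IsConj s r := by
  refine ⟨qq Γ φ ρ hρ F t, qq_mem Γ φ ρ hρ F ht, ?_⟩
  have h1 := MonoidHom.map_isConj (qq Γ φ ρ hρ F) h
  rwa [(mem_SF Γ φ ρ hρ F s).1 hs] at h1

/-- elements conjugate to proper powers are conjugate into parabolic subgroups of cliques -/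
theorem exists_clique (g : GProd Γ φ ρ) (m : ℕ) (hm : 2 ≤ m) (hg : IsConj g (g ^ m)) :
    ∀ (F : Finset V) (s : GProd Γ φ ρ), s ∈ SF Γ φ ρ hρ (F : Set V) → IsConj g s →
      ∃ Δ : Finset V, Δ ⊆ F ∧ Γ.IsClique (Δ : Set V) ∧
        ∃ t ∈ SF Γ φ ρ hρ (Δ : Set V), IsConj g t := by
  classical
  intro F
  induction F using Finset.strongInduction with
  | _ F ih =>
  intro s hs hgs
  by_cases hF : Γ.IsClique (F : Set V)
  · exact ⟨F, subset_rfl, hF, s, hs, hgs⟩
  · rw [SimpleGraph.isClique_iff, Set.Pairwise] at hF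
    push Not at hF
    obtain ⟨v, hv, w, hw, hvw, hnadj⟩ := hF
    have key : ∀ F' : Set V, (∃ x ∈ F, x ∉ F') → (∃ t ∈ SF Γ φ ρ hρ F', IsConj g t) →
        ∃ Δ : Finset V, Δ ⊆ F ∧ Γ.IsClique (Δ : Set V) ∧
          ∃ t ∈ SF Γ φ ρ hρ (Δ : Set V), IsConj g t := by
      rintro F' ⟨x, hx, hxF'⟩ ⟨t, ht, hgt⟩
      obtain ⟨r, hr, hsr⟩ := conj_inter Γ φ ρ hρ hs ht (hgs.symm.trans hgt)
      have h1 : ((F.filter (fun y => y ∈ F') : Finset V) : Set V) = (F : Set V) ∩ F' := by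
        ext y
        rw [Finset.coe_filter]
        rfl
      rw [← h1] at hr
      obtain ⟨Δ, h2, h3, h4⟩ := ih (F.filter (fun y => y ∈ F')) (by
        rw [Finset.ssubset_iff_of_subset (Finset.filter_subset _ _)]
        exact ⟨x, hx, fun h => hxF' (Finset.mem_filter.1 h).2⟩) r hr (hgs.trans hsr)
      exact ⟨Δ, h2.trans (Finset.filter_subset _ _), h3, h4⟩
    rcases elliptic_at Γ φ ρ hρ v g m hm hg with h | h
    · exact key {v}ᶜ ⟨v, hv, fun h' => h' (Set.mem_singleton v)⟩ h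
    · refine key _ ⟨w, hw, ?_⟩ h
      rintro (h | h)
      · exact hvw h.symm
      · exact hnadj h

end

end Pool.Agent.H92.Am
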