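import Pool.Agent.H92.Am.GP
import Pool.Agent.H92.Am.Bass

set_option autoImplicit false

/-!
The Bass trace conjecture for graph products over a common retract.
-/

namespace Pool.Agent.H92.Am

open MonoidAlgebra
open Monoid (PushoutI)
open Pool.Agent.H23R2.Cyc (ell ell_single ell_eq_sum tf tf_apply)
open Pool.Agent.H26R2.Bass
open Pool.Agent.Y75.BF (InfOrd NoPow good_of_noPower)

universe u v w

section

variable {V : Type u} (Γ : SimpleGraph V) {C : Type u} [Group C] {G : V → Type u}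
  [∀ v, Group (G v)] (φ : ∀ v, C →* G v) (ρ : ∀ v, G v →* C)
  (hρ : ∀ v, (ρ v).comp (φ v) = MonoidHom.id C)

open GProd hiding ind

include hρ in
theorem rho_ff (w v : V) (x : G v) : ρ w (ff φ ρ w v x) = ρ v x := by
  by_cases h : v = w
  · subst h
    rw [ff_self]
    rfl
  · rw [ff_ne φ ρ w v h]
    change ρ w (φ w (ρ v x)) = _
    rw [rho_phi φ ρ hρ]

include hρ in
theorem ff_phi (w v : V) (c : C) : ff φ ρ w v (φ v c) = φ w c :=
  DFunLike.congr_fun (ff_comp φ ρ hρ w v) c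

/-- the homomorphism to the fibre product on a factor -/
noncomputable def fD (Δ : Finset V) (v : V) : G v →* Fib ρ Δ where
  toFun x := ⟨(fun w => ff φ ρ w v x, ρ v x), fun w => rho_ff φ ρ hρ w v x⟩
  map_one' := by
    apply Subtype.ext
    refine Prod.ext ?_ (map_one _)
    funext w
    exact map_one _
  map_mul' := by
    intro a b
    apply Subtype.ext
    refine Prod.ext ?_ (map_mul _ _ _)
    funext w
    exact map_mul _ _ _

/-- the homomorphism to the fibre product on the base -/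
def kD (Δ : Finset V) : C →* Fib ρ Δ where
  toFun c := ⟨(fun w => φ w c, c), fun w => rho_phi φ ρ hρ w c⟩
  map_one' := by
    apply Subtype.ext
    refine Prod.ext ?_ rfl
    funext w
    exact map_one _
  map_mul' := by
    intro a b
    apply Subtype.ext
    refine Prod.ext ?_ rfl
    funext w
    exact map_mul _ _ _

/-- the homomorphism to the fibre product -/
noncomputable def rD (Δ : Finset V) : GProd Γ φ ρ →* Fib ρ Δ :=
  lift Γ φ ρ (fD φ ρ hρ Δ) (kD φ ρ hρ Δ)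
    (by
      intro v
      refine MonoidHom.ext fun c => Subtype.ext (Prod.ext ?_ ?_)
      · funext w
        exact ff_phi φ ρ hρ w v c
      · exact rho_phi φ ρ hρ v c)
    (by
      intro v w h a b ha hb
      apply Subtype.ext
      refine Prod.ext ?_ ?_
      · funext u
        change ff φ ρ u v a * ff φ ρ u w b = ff φ ρ u w b * ff φ ρ u v a
        by_cases hu : v = u
        · have hw : w ≠ u := fun h' => h.ne (hu.trans h'.symm)
          rw [ff_ne φ ρ u w hw]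
          change _ * φ u (ρ w b) = φ u (ρ w b) * _
          rw [hb, map_one, mul_one, one_mul]
        · rw [ff_ne φ ρ u v hu]
          change φ u (ρ v a) * _ = _ * φ u (ρ v a)
          rw [ha, map_one, mul_one, one_mul]
      · change ρ v a * ρ w b = ρ w b * ρ v a
        rw [ha, hb])

theorem rD_of' (Δ : Finset V) (v : V) (x : G v) : rD Γ φ ρ hρ Δ (of Γ φ ρ v x) =
    fD φ ρ hρ Δ v x := lift_of Γ φ ρ _ _ _ _ v x

theorem rD_base' (Δ : Finset V) (c : C) : rD Γ φ ρ hρ Δ (base Γ φ ρ c) = kD φ ρ hρ Δ c :=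
  lift_base Γ φ ρ _ _ _ _ c

theorem rD_of (Δ : Finset V) (v : V) (x : G v) : rD Γ φ ρ hρ Δ (of Γ φ ρ v x) =
    ⟨(fun w => ff φ ρ w v x, ρ v x), fun w => rho_ff φ ρ hρ w v x⟩ := rD_of' Γ φ ρ hρ Δ v x

theorem rD_base (Δ : Finset V) (c : C) : rD Γ φ ρ hρ Δ (base Γ φ ρ c) =
    ⟨(fun w => φ w c, c), fun w => rho_phi φ ρ hρ w c⟩ := rD_base' Γ φ ρ hρ Δ c

section clique

variable {Δ : Finset V} (hΔ : Γ.IsClique (Δ : Set V))

/-- the product of the kernels -/
noncomputable def kap : (∀ v : Δ, (ρ v).ker) →* GProd Γ φ ρ :=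
  MonoidHom.noncommPiCoprod (fun v : Δ => (of Γ φ ρ v).comp (ρ v).ker.subtype) (by
    intro v w hvw x y
    exact comm Γ φ ρ v w x y (hΔ v.2 w.2 (fun h => hvw (Subtype.ext h))) x.2 y.2)

open Classical in
theorem kap_single (v : Δ) (x : (ρ v).ker) :
    kap Γ φ ρ hΔ (Pi.mulSingle v x) = of Γ φ ρ v (x : G v) := by
  unfold kap
  exact MonoidHom.noncommPiCoprod_mulSingle
    (fun v : Δ => (of Γ φ ρ v).comp (ρ v).ker.subtype) v x

/-- the kernel part -/
def kp (x : Fib ρ Δ) : ∀ v : Δ, (ρ v).ker := fun v =>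
  ⟨x.1.1 v * (φ v x.1.2)⁻¹, by
    rw [MonoidHom.mem_ker, map_mul, map_inv, rho_phi φ ρ hρ, x.2 v, mul_inv_cancel]⟩

/-- the conjugation by an element of the base -/
def cj (c : C) : (∀ v : Δ, (ρ v).ker) →* (∀ v : Δ, (ρ v).ker) where
  toFun k := fun v => ⟨φ v c * k v * (φ v c)⁻¹, by
    have h : ρ v (k v : G v) = 1 := (k v).2
    rw [MonoidHom.mem_ker, map_mul, map_mul, map_inv, h, mul_one, mul_inv_cancel]⟩
  map_one' := by
    funext v
    apply Subtype.ext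
    change φ v c * 1 * (φ v c)⁻¹ = 1
    group
  map_mul' := by
    intro a b
    funext v
    apply Subtype.ext
    change φ v c * ((a v : G v) * (b v : G v)) * (φ v c)⁻¹ =
      φ v c * (a v : G v) * (φ v c)⁻¹ * (φ v c * (b v : G v) * (φ v c)⁻¹)
    group

theorem kap_cj (c : C) (k : ∀ v : Δ, (ρ v).ker) : kap Γ φ ρ hΔ (cj φ ρ c k) =
    base Γ φ ρ c * kap Γ φ ρ hΔ k * (base Γ φ ρ c)⁻¹ := by
  classical
  have h : (kap Γ φ ρ hΔ).comp (cj φ ρ c) =
      (MulAut.conj (base Γ φ ρ c)).toMonoidHom.comp (kap Γ φ ρ hΔ) := by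
    apply MonoidHom.pi_ext
    intro v x
    have h1 : cj φ ρ (Δ := Δ) c (Pi.mulSingle v x) = Pi.mulSingle v
        ⟨φ v c * x * (φ v c)⁻¹, by
          have h : ρ v (x : G v) = 1 := x.2
          rw [MonoidHom.mem_ker, map_mul, map_mul, map_inv, h, mul_one, mul_inv_cancel]⟩ := by
      funext w
      by_cases hw : w = v
      · subst hw
        rw [Pi.mulSingle_eq_same]
        apply Subtype.ext
        change φ w c * ((Pi.mulSingle w x : ∀ v : Δ, (ρ v).ker) w : G w) * (φ w c)⁻¹ = _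
        rw [Pi.mulSingle_eq_same]
      · rw [Pi.mulSingle_eq_of_ne hw]
        apply Subtype.ext
        change φ w c * ((Pi.mulSingle v x : ∀ v : Δ, (ρ v).ker) w : G w) * (φ w c)⁻¹ = 1
        rw [Pi.mulSingle_eq_of_ne hw]
        change φ w c * 1 * (φ w c)⁻¹ = 1
        group
    rw [MonoidHom.comp_apply, h1, kap_single, MonoidHom.comp_apply, kap_single]
    change of Γ φ ρ v (φ v c * x * (φ v c)⁻¹) = base Γ φ ρ c * of Γ φ ρ v x * (base Γ φ ρ c)⁻¹
    rw [map_mul, map_mul, map_inv, of_base]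
  exact DFunLike.congr_fun h k

/-- the homomorphism from the fibre product -/
noncomputable def jD : Fib ρ Δ →* GProd Γ φ ρ where
  toFun x := kap Γ φ ρ hΔ (kp φ ρ hρ x) * base Γ φ ρ x.1.2
  map_one' := by
    have h1 : kp φ ρ hρ (1 : Fib ρ Δ) = 1 := by
      funext v
      apply Subtype.ext
      change (1 : G v) * (φ v (1 : C))⁻¹ = 1
      rw [map_one, inv_one, mul_one]
    rw [h1, map_one, one_mul]
    exact map_one _
  map_mul' := by
    intro x y
    have h1 : kp φ ρ hρ (x * y) = kp φ ρ hρ x * cj φ ρ x.1.2 (kp φ ρ hρ y) := by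
      funext v
      apply Subtype.ext
      change x.1.1 v * y.1.1 v * (φ v (x.1.2 * y.1.2))⁻¹ =
        x.1.1 v * (φ v x.1.2)⁻¹ * (φ v x.1.2 * (y.1.1 v * (φ v y.1.2)⁻¹) * (φ v x.1.2)⁻¹)
      rw [map_mul]
      group
    have h2 : ((x * y : Fib ρ Δ)).1.2 = x.1.2 * y.1.2 := rfl
    rw [h1, h2, map_mul, map_mul, kap_cj]
    group

theorem jD_rD (g : GProd Γ φ ρ) : jD Γ φ ρ hρ hΔ (rD Γ φ ρ hρ Δ g) =
    qq Γ φ ρ hρ (Δ : Set V) g := by
  classical
  have h : (jD Γ φ ρ hρ hΔ).comp (rD Γ φ ρ hρ Δ) = qq Γ φ ρ hρ (Δ : Set V) := by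
    apply hom_ext
    · intro v x
      rw [MonoidHom.comp_apply, rD_of]
      change kap Γ φ ρ hΔ (kp φ ρ hρ _) * base Γ φ ρ (ρ v x) = _
      by_cases hv : v ∈ Δ
      · rw [qq_of Γ φ ρ hρ (by exact_mod_cast hv)]
        have h1 : kp φ ρ hρ (Δ := Δ) ⟨(fun w => ff φ ρ w v x, ρ v x),
            fun w => rho_ff φ ρ hρ w v x⟩ = Pi.mulSingle ⟨v, hv⟩
            ⟨x * (φ v (ρ v x))⁻¹, by
              rw [MonoidHom.mem_ker, map_mul, map_inv, rho_phi φ ρ hρ, mul_inv_cancel]⟩ := by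
          funext w
          by_cases hw : w = ⟨v, hv⟩
          · subst hw
            rw [Pi.mulSingle_eq_same]
            apply Subtype.ext
            change ff φ ρ v v x * (φ v (ρ v x))⁻¹ = x * (φ v (ρ v x))⁻¹
            rw [ff_self]
            rfl
          · rw [Pi.mulSingle_eq_of_ne hw]
            apply Subtype.ext
            change ff φ ρ w v x * (φ w (ρ v x))⁻¹ = 1
            rw [ff_ne φ ρ w v (fun h => hw (Subtype.ext h.symm))]
            change φ w (ρ v x) * (φ w (ρ v x))⁻¹ = 1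
            rw [mul_inv_cancel]
        rw [h1, kap_single, ← of_base Γ φ ρ v, ← map_mul]
        congr 1
        change x * (φ v (ρ v x))⁻¹ * φ v (ρ v x) = x
        group
      · rw [qq_of_not Γ φ ρ hρ (by exact_mod_cast hv)]
        have h1 : kp φ ρ hρ (Δ := Δ) ⟨(fun w => ff φ ρ w v x, ρ v x),
            fun w => rho_ff φ ρ hρ w v x⟩ = 1 := by
          funext w
          apply Subtype.ext
          change ff φ ρ w v x * (φ w (ρ v x))⁻¹ = 1
          rw [ff_ne φ ρ w v (fun h => hv (h ▸ w.2))]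
          change φ w (ρ v x) * (φ w (ρ v x))⁻¹ = 1
          rw [mul_inv_cancel]
        rw [h1, map_one, one_mul]
    · intro c
      rw [MonoidHom.comp_apply, rD_base, qq_base]
      change kap Γ φ ρ hΔ (kp φ ρ hρ _) * base Γ φ ρ c = _
      have h1 : kp φ ρ hρ (Δ := Δ) ⟨(fun w => φ w c, c), fun w => rho_phi φ ρ hρ w c⟩ = 1 := by
        funext w
        apply Subtype.ext
        change φ w c * (φ w c)⁻¹ = 1
        rw [mul_inv_cancel]
      rw [h1, map_one, one_mul]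
  exact DFunLike.congr_fun h g

/-- the kernel part as an element of the fibre product -/
def ik : (∀ v : Δ, (ρ v).ker) →* Fib ρ Δ where
  toFun k := ⟨(fun v => k v, 1), fun v => (k v).2⟩
  map_one' := rfl
  map_mul' _ _ := Subtype.ext (Prod.ext rfl (mul_one _).symm)

theorem rD_kap (k : ∀ v : Δ, (ρ v).ker) : rD Γ φ ρ hρ Δ (kap Γ φ ρ hΔ k) = ik ρ k := by
  classical
  have h : (rD Γ φ ρ hρ Δ).comp (kap Γ φ ρ hΔ) = ik ρ := by
    apply MonoidHom.pi_ext
    intro v x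
    rw [MonoidHom.comp_apply, kap_single, rD_of]
    have hx : ρ v (x : G v) = 1 := x.2
    apply Subtype.ext
    refine Prod.ext ?_ hx
    funext w
    change ff φ ρ w v x = ((Pi.mulSingle v x : ∀ v : Δ, (ρ v).ker) w : G w)
    by_cases hw : w = v
    · subst hw
      rw [Pi.mulSingle_eq_same, ff_self]
      rfl
    · rw [Pi.mulSingle_eq_of_ne hw, ff_ne φ ρ w v (fun h => hw (Subtype.ext h.symm))]
      change φ w (ρ v x) = 1
      rw [hx, map_one]
  exact DFunLike.congr_fun h k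

theorem rD_jD (x : Fib ρ Δ) : rD Γ φ ρ hρ Δ (jD Γ φ ρ hρ hΔ x) = x := by
  change rD Γ φ ρ hρ Δ (kap Γ φ ρ hΔ (kp φ ρ hρ x) * base Γ φ ρ x.1.2) = x
  rw [map_mul, rD_kap, rD_base]
  apply Subtype.ext
  refine Prod.ext ?_ (one_mul _)
  funext v
  change x.1.1 v * (φ v x.1.2)⁻¹ * φ v x.1.2 = x.1.1 v
  group

include hΔ in
theorem conj_of_rD {s t : GProd Γ φ ρ} (hs : s ∈ SF Γ φ ρ hρ (Δ : Set V))
    (ht : t ∈ SF Γ φ ρ hρ (Δ : Set V)) (h : IsConj (rD Γ φ ρ hρ Δ s) (rD Γ φ ρ hρ Δ t)) :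
    IsConj s t := by
  have h1 := MonoidHom.map_isConj (jD Γ φ ρ hρ hΔ) h
  rwa [jD_rD, jD_rD, (mem_SF Γ φ ρ hρ _ s).1 hs, (mem_SF Γ φ ρ hρ _ t).1 ht] at h1

end clique

/-- the homomorphism to the fibre product factors through the retraction -/
theorem rD_qq (Δ : Finset V) (g : GProd Γ φ ρ) :
    rD Γ φ ρ hρ Δ (qq Γ φ ρ hρ (Δ : Set V) g) = rD Γ φ ρ hρ Δ g := by
  have h : (rD Γ φ ρ hρ Δ).comp (qq Γ φ ρ hρ (Δ : Set V)) = rD Γ φ ρ hρ Δ := by
    apply hom_ext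
    · intro v x
      rw [MonoidHom.comp_apply]
      by_cases hv : v ∈ Δ
      · rw [qq_of Γ φ ρ hρ (by exact_mod_cast hv)]
      · rw [qq_of_not Γ φ ρ hρ (by exact_mod_cast hv), rD_of, rD_base]
        apply Subtype.ext
        refine Prod.ext ?_ rfl
        funext w
        change φ w (ρ v x) = ff φ ρ w v x
        rw [ff_ne φ ρ w v (fun h => hv (h ▸ w.2))]
        rfl
    · intro c
      rw [MonoidHom.comp_apply, qq_base]
  exact DFunLike.congr_fun h g

include hρ in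
/-- **Graph products.** -/
theorem bass_gprod (R : Type v) [CommRing R] [IsDomain R]
    (hG : ∀ Δ : Finset V, Γ.IsClique (Δ : Set V) → BassFor R (Fib ρ Δ)) :
    BassFor R (GProd Γ φ ρ) := by
  classical
  intro n A hA g hg
  have hA' : A * A = A := hA
  change tau A g = 0
  rw [tau_eq]
  by_cases hfin : orderOf g = 0
  swap
  · exact tf_zero_of_finite A hA' g hfin hg
  -- a finite parabolic subgroup containing the supports
  obtain ⟨F, hF⟩ : ∃ F : Finset V, ∀ h, tf (ind R h) A ≠ 0 →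
      ∃ s ∈ SF Γ φ ρ hρ (F : Set V), IsConj h s := by
    choose f hf using exists_finite Γ φ ρ hρ
    refine ⟨(Finset.univ.biUnion fun i : Fin n => (A i i).coeff.support).biUnion f, ?_⟩
    intro h hne
    rw [tf_apply] at hne
    obtain ⟨i, -, hi⟩ := Finset.exists_ne_zero_of_sum_ne_zero hne
    rw [ell_eq_sum _ (A i i).coeff.support (A i i) (fun g hg => Finsupp.mem_support_iff.2 hg)] at hi
    obtain ⟨y, hy, hy2⟩ := Finset.exists_ne_zero_of_sum_ne_zero hi
    have hy3 : IsConj y h := by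
      by_contra hcon
      apply hy2
      unfold ind
      rw [if_neg hcon, mul_zero]
    refine ⟨y, SF_mono Γ φ ρ hρ ?_ (hf y), hy3.symm⟩
    intro x hx
    rw [Finset.mem_coe, Finset.mem_biUnion]
    exact ⟨y, Finset.mem_biUnion.2 ⟨i, Finset.mem_univ _, hy⟩, hx⟩
  -- the induction
  have key : ∀ k : ℕ, ∀ Δ : Finset V, Δ ⊆ F → F.card - Δ.card = k →
      Γ.IsClique (Δ : Set V) → ∀ s ∈ SF Γ φ ρ hρ (Δ : Set V), InfOrd s →
      (∀ Δ' : Finset V, Δ' ⊂ Δ → ∀ t ∈ SF Γ φ ρ hρ (Δ' : Set V), ¬ IsConj s t) →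
      tf (ind R s) A = 0 := by
    intro k
    induction k using Nat.strong_induction_on with
    | _ k ih =>
    intro Δ hΔF hk hcl s hs hinf hmin
    have hinf' : InfOrd (rD Γ φ ρ hρ Δ s) := by
      intro m hm h1
      apply hinf m hm
      have h2 := congrArg (jD Γ φ ρ hρ hcl) h1
      rwa [← map_pow, jD_rD, map_one, map_pow, (mem_SF Γ φ ρ hρ _ s).1 hs] at h2
    refine tf_zero_of_sep (hG Δ hcl) (rD Γ φ ρ hρ Δ) A hA' s hinf' ?_
    intro h hne hconj
    obtain ⟨m, hm, hpow⟩ := exists_pow A hA' h hne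
    obtain ⟨s₁, hs₁, hhs₁⟩ := hF h hne
    obtain ⟨Δ₀, hΔ₀F, hcl₀, t₀, ht₀, hht₀⟩ := exists_clique Γ φ ρ hρ h m hm hpow F s₁ hs₁ hhs₁
    -- a minimal one
    obtain ⟨Δ₁, hΔ₁, hmin₁⟩ := Finset.exists_min_image
      (Δ₀.powerset.filter fun D : Finset V => ∃ t ∈ SF Γ φ ρ hρ (D : Set V), IsConj h t) Finset.card
      ⟨Δ₀, Finset.mem_filter.2 ⟨Finset.mem_powerset.2 subset_rfl, t₀, ht₀, hht₀⟩⟩
    rw [Finset.mem_filter, Finset.mem_powerset] at hΔ₁
    obtain ⟨hΔ₁₀, t₁, ht₁, hht₁⟩ := hΔ₁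
    have hcl₁ : Γ.IsClique (Δ₁ : Set V) := hcl₀.subset (by exact_mod_cast hΔ₁₀)
    have hm₁ : ∀ Δ' : Finset V, Δ' ⊂ Δ₁ → ∀ t ∈ SF Γ φ ρ hρ (Δ' : Set V), ¬ IsConj t₁ t := by
      intro Δ' hΔ' t ht hc
      have h1 := hmin₁ Δ' (Finset.mem_filter.2 ⟨Finset.mem_powerset.2 (hΔ'.subset.trans hΔ₁₀),
        t, ht, hht₁.trans hc⟩)
      exact absurd (Finset.card_lt_card hΔ') (not_lt.2 h1)
    -- the image in `Δ`
    have hc1 : IsConj (qq Γ φ ρ hρ (Δ : Set V) t₁) s := by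
      apply conj_of_rD Γ φ ρ hρ hcl _ hs
      · rw [rD_qq]
        exact (MonoidHom.map_isConj (rD Γ φ ρ hρ Δ) hht₁).symm.trans hconj
      · exact SF_mono Γ φ ρ hρ Set.inter_subset_left (qq_mem Γ φ ρ hρ (Δ : Set V) ht₁)
    have hsub : Δ ⊆ Δ₁ := by
      by_contra hcon
      have h1 : Δ ∩ Δ₁ ⊂ Δ := by
        rw [Finset.ssubset_iff_subset_ne]
        exact ⟨Finset.inter_subset_left, fun h => hcon (Finset.inter_eq_left.1 h)⟩
      have h2 := qq_mem Γ φ ρ hρ (Δ : Set V) ht₁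
      rw [← Finset.coe_inter] at h2
      exact hmin _ h1 _ h2 hc1.symm
    rcases eq_or_ne Δ Δ₁ with rfl | hneΔ
    · have h1 : qq Γ φ ρ hρ (Δ : Set V) t₁ = t₁ := (mem_SF Γ φ ρ hρ _ t₁).1 ht₁
      rw [h1] at hc1
      exact hht₁.trans hc1
    · exfalso
      have hss : Δ ⊂ Δ₁ := Finset.ssubset_iff_subset_ne.2 ⟨hsub, hneΔ⟩
      have hΔ₁F : Δ₁ ⊆ F := hΔ₁₀.trans hΔ₀F
      have hlt := Finset.card_lt_card hss
      have hle := Finset.card_le_card hΔ₁F
      have hinf₁ : InfOrd t₁ := by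
        apply infOrd_of_map (qq Γ φ ρ hρ (Δ : Set V))
        exact infOrd_conj hc1.symm hinf
      apply hne
      rw [ind_eq hht₁]
      exact ih (F.card - Δ₁.card) (by omega) Δ₁ hΔ₁F rfl hcl₁ t₁ ht₁ hinf₁ hm₁
  -- the end
  by_contra hne
  have hinf : InfOrd g := orderOf_eq_zero_iff'.1 hfin
  obtain ⟨m, hm, hpow⟩ := exists_pow A hA' g hne
  obtain ⟨s₁, hs₁, hhs₁⟩ := hF g hne
  obtain ⟨Δ₀, hΔ₀F, hcl₀, t₀, ht₀, hht₀⟩ := exists_clique Γ φ ρ hρ g m hm hpow F s₁ hs₁ hhs₁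
  obtain ⟨Δ₁, hΔ₁, hmin₁⟩ := Finset.exists_min_image
    (Δ₀.powerset.filter fun D : Finset V => ∃ t ∈ SF Γ φ ρ hρ (D : Set V), IsConj g t) Finset.card
    ⟨Δ₀, Finset.mem_filter.2 ⟨Finset.mem_powerset.2 subset_rfl, t₀, ht₀, hht₀⟩⟩
  rw [Finset.mem_filter, Finset.mem_powerset] at hΔ₁
  obtain ⟨hΔ₁₀, t₁, ht₁, hht₁⟩ := hΔ₁
  apply hne
  rw [ind_eq hht₁]
  refine key _ Δ₁ (hΔ₁₀.trans hΔ₀F) rfl (hcl₀.subset (by exact_mod_cast hΔ₁₀)) t₁ ht₁
    (infOrd_conj hht₁ hinf) ?_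
  intro Δ' hΔ' t ht hc
  have h1 := hmin₁ Δ' (Finset.mem_filter.2 ⟨Finset.mem_powerset.2 (hΔ'.subset.trans hΔ₁₀),
    t, ht, hht₁.trans hc⟩)
  exact absurd (Finset.card_lt_card hΔ') (not_lt.2 h1)

include hρ in
/-- the converse -/
theorem bass_fib (R : Type v) [CommRing R] [IsDomain R] (hG : BassFor R (GProd Γ φ ρ))
    (Δ : Finset V) (hΔ : Γ.IsClique (Δ : Set V)) : BassFor R (Fib ρ Δ) := by
  apply bass_retract (jD Γ φ ρ hρ hΔ) (rD Γ φ ρ hρ Δ) _ hG
  exact MonoidHom.ext fun x => rD_jD Γ φ ρ hρ hΔ x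

end

end Pool.Agent.H92.Am
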