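import Mathlib

set_option autoImplicit false

/-!
Graph products of groups over a common retract.
-/

namespace Pool.Agent.H92.Am

universe u

variable {V : Type u} (Γ : SimpleGraph V) {C : Type u} [Group C] {G : V → Type u}
  [∀ v, Group (G v)] (φ : ∀ v, C →* G v) (ρ : ∀ v, G v →* C)

/-- The commutators, in the amalgamated product of the groups `G v` over `C`, of elements of the
kernels of `ρ v` and `ρ w`, where `v` and `w` are adjacent vertices of the graph. -/
def Rels : Set (Monoid.PushoutI φ) :=
  {x | ∃ (v w : V) (a : G v) (b : G w), Γ.Adj v w ∧ ρ v a = 1 ∧ ρ w b = 1 ∧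
    x = (Monoid.PushoutI.of v a : Monoid.PushoutI φ) * Monoid.PushoutI.of w b *
      (Monoid.PushoutI.of v a)⁻¹ * (Monoid.PushoutI.of w b)⁻¹}

/-- The graph product of the groups `G v` over `C`: the quotient of their amalgamated product over
`C` in which, for adjacent vertices `v` and `w` of the graph, the kernels of the retractions `ρ v`
and `ρ w` commute with each other. -/
def GProd : Type u := Monoid.PushoutI φ ⧸ Subgroup.normalClosure (Rels Γ φ ρ)

instance : Group (GProd Γ φ ρ) :=
  QuotientGroup.Quotient.group (Subgroup.normalClosure (Rels Γ φ ρ))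

/-- The fibre product over `C` of the groups `G v`, `v ∈ Δ`: the group of the pairs `(x, c)`,
`x ∈ ∏ v ∈ Δ, G v`, `c ∈ C`, with `ρ v (x v) = c` for all `v ∈ Δ`. -/
def Fib (Δ : Finset V) : Subgroup ((∀ v : Δ, G v) × C) where
  carrier := {x | ∀ v : Δ, ρ v (x.1 v) = x.2}
  one_mem' := fun v => by
    change ρ v (1 : G v) = 1
    rw [map_one]
  mul_mem' := fun {a b} ha hb v => by
    change ρ v (a.1 v * b.1 v) = a.2 * b.2
    rw [map_mul, ha v, hb v]
  inv_mem' := fun {a} ha v => by
    change ρ v (a.1 v)⁻¹ = a.2⁻¹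
    rw [map_inv, ha v]

end Pool.Agent.H92.Am
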