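import Pool.Agent.Y75.BF.Thm

set_option autoImplicit false

/-!
Separation of conjugacy classes by homomorphisms; retracts.
-/

namespace Pool.Agent.H92.Am

open MonoidAlgebra
open Pool.Agent.H23R2.Cyc (ell ell_single ell_mul_comm ell_eq_sum tf tf_apply tf_eq_zero)
open Pool.Agent.H26R2.Bass
open Pool.Agent.Y75.BF (InfOrd NoPow good_of_noPower)

universe u v w

variable {R : Type u} [CommRing R] {G : Type v} [Group G] {n : ℕ}

/-- if the classes with nonzero rank are separated from the class of `g` by `π` -/
theorem tf_sep_hom {Q : Type w} [Group Q] (π : G →* Q)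
    (A : Matrix (Fin n) (Fin n) (MonoidAlgebra R G)) (g : G)
    (hs : ∀ h, tf (ind R h) A ≠ 0 → IsConj (π h) (π g) → IsConj h g) :
    tf (ind R g) A = tf (ind R (π g)) (A.map (mapDomainRingHom R π)) := by
  classical
  rw [tf_apply, tf_apply]
  have h2 : ∑ i, ell (ind R (π g)) (A.map (mapDomainRingHom R π) i i) =
      ell (fun h => ind R (π g) (π h)) (∑ i, A i i) := by
    rw [map_sum]
    apply Finset.sum_congr rfl
    intro i _
    exact ell_map π (ind R (π g)) (A i i)
  rw [h2, ← map_sum]
  have h3 : ell (fun h => ind R (π g) (π h) - ind R g h) (∑ i, A i i) = 0 := by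
    apply ell_class
    · intro a b hab
      have e1 : ind R (π g) (π a) = ind R (π g) (π b) := by
        have hab' : IsConj (π a) (π b) := MonoidHom.map_isConj π hab
        unfold ind
        by_cases h : IsConj (π a) (π g)
        · rw [if_pos h, if_pos (hab'.symm.trans h)]
        · rw [if_neg h, if_neg (fun h' => h (hab'.trans h'))]
      have e2 : ind R g a = ind R g b := by
        unfold ind
        by_cases h : IsConj a g
        · rw [if_pos h, if_pos (hab.symm.trans h)]
        · rw [if_neg h, if_neg (fun h' => h (hab.trans h'))]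
      rw [e1, e2]
    · intro h hh
      have h5 : tf (ind R h) A = 0 := by
        by_contra hne
        apply hh
        have h4 : IsConj (π h) (π g) ↔ IsConj h g :=
          ⟨hs h hne, fun h4 => MonoidHom.map_isConj π h4⟩
        unfold ind
        by_cases h5 : IsConj h g
        · rw [if_pos h5, if_pos (h4.2 h5), sub_self]
        · rw [if_neg h5, if_neg (fun h6 => h5 (h4.1 h6)), sub_self]
      rw [tf_apply] at h5
      rw [map_sum]
      exact h5
  have hsup : ∀ y, (∑ i, A i i).coeff y ≠ 0 → y ∈ (∑ i, A i i).coeff.support := fun y hy =>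
    Finsupp.mem_support_iff.2 hy
  rw [ell_eq_sum _ _ _ hsup] at h3 ⊢
  rw [ell_eq_sum _ _ _ hsup]
  have h6 : ∑ y ∈ (∑ i, A i i).coeff.support,
      (∑ i, A i i).coeff y * (ind R (π g) (π y) - ind R g y) =
      ∑ y ∈ (∑ i, A i i).coeff.support, (∑ i, A i i).coeff y * ind R (π g) (π y) -
      ∑ y ∈ (∑ i, A i i).coeff.support, (∑ i, A i i).coeff y * ind R g y := by
    rw [← Finset.sum_sub_distrib]
    apply Finset.sum_congr rfl
    intro y _
    ring
  rw [h6, sub_eq_zero] at h3
  exact h3.symm

/-- the same for an element of infinite order, if the conjecture holds for the target -/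
theorem tf_zero_of_sep [IsDomain R] {Q : Type w} [Group Q] (hQ : BassFor R Q) (π : G →* Q)
    (A : Matrix (Fin n) (Fin n) (MonoidAlgebra R G)) (hA : A * A = A) (g : G)
    (hg : InfOrd (π g))
    (hs : ∀ h, tf (ind R h) A ≠ 0 → IsConj (π h) (π g) → IsConj h g) :
    tf (ind R g) A = 0 := by
  rw [tf_sep_hom π A g hs, ← tau_eq]
  refine hQ n _ ?_ _ ?_
  · change A.map (mapDomainRingHom R π) * A.map (mapDomainRingHom R π) = A.map (mapDomainRingHom R π)
    rw [← Matrix.map_mul, hA]
  · rw [orderOf_eq_zero_iff'.2 hg, Nat.cast_zero]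
    exact not_isUnit_zero

/-- retracts -/
theorem bass_retract [IsDomain R] {Q : Type w} [Group Q] (φ : Q →* G) (ρ : G →* Q)
    (h : ρ.comp φ = MonoidHom.id Q) (hG : BassFor R G) : BassFor R Q := by
  intro n A hA g hg
  have hA' : A * A = A := hA
  have hρ : ∀ x, ρ (φ x) = x := fun x => DFunLike.congr_fun h x
  have hinj : Function.Injective φ := fun x y hxy => by rw [← hρ x, ← hρ y, hxy]
  change tau A g = 0
  rw [tau_eq, tf_sep_hom φ A g, ← tau_eq]
  · refine hG n _ ?_ _ ?_
    · change A.map (mapDomainRingHom R φ) * A.map (mapDomainRingHom R φ) =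
        A.map (mapDomainRingHom R φ)
      rw [← Matrix.map_mul, hA']
    · rwa [orderOf_injective φ hinj]
  · intro y _ hy
    have h1 := MonoidHom.map_isConj ρ hy
    rwa [hρ, hρ] at h1

end Pool.Agent.H92.Am
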