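import Mathlib

set_option autoImplicit false

/-!
Fixed points of groups acting on trees.
-/

namespace Pool.Agent.H92.Am

open SimpleGraph

universe u v

variable {V : Type u} {T : SimpleGraph V}

theorem dist_drop {x a z : V} (q : T.Walk x a) (hz : z ∈ q.support) (hzx : z ≠ x) :
    T.dist z a < q.length := by
  classical
  have h1 := q.take_spec hz
  have h2 : (q.takeUntil z hz).length + (q.dropUntil z hz).length = q.length := by
    rw [← Walk.length_append, h1]
  have h3 : 0 < (q.takeUntil z hz).length := by
    rcases Nat.eq_zero_or_pos (q.takeUntil z hz).length with h | h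
    · exact absurd (Walk.eq_of_length_eq_zero h).symm hzx
    · exact h
  have h4 := T.dist_le (q.dropUntil z hz)
  omega

/-- a point between `x` and `y` is closer to `a` than `x` or `y` -/
theorem dist_between (hT : T.IsTree) {x y z : V} (p : T.Walk x y) (hp : p.IsPath)
    (hz : z ∈ p.support) (hzx : z ≠ x) (hzy : z ≠ y) (a : V) :
    T.dist z a < max (T.dist x a) (T.dist y a) := by
  classical
  obtain ⟨q, hq⟩ := hT.1.exists_walk_length_eq_dist x a
  obtain ⟨r, hr⟩ := hT.1.exists_walk_length_eq_dist y a
  have h1 : ((q.append r.reverse).bypass : T.Walk x y) = p := by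
    have h2 := (hT.isAcyclic.subsingleton_path x y).elim
      ⟨(q.append r.reverse).bypass, Walk.bypass_isPath _⟩ ⟨p, hp⟩
    exact congrArg Subtype.val h2
  have h2 : z ∈ (q.append r.reverse).support := by
    apply Walk.support_bypass_subset_support
    rw [h1]
    exact hz
  rw [Walk.mem_support_append_iff, Walk.support_reverse, List.mem_reverse] at h2
  rcases h2 with h2 | h2
  · have h3 := dist_drop q h2 hzx
    rw [hq] at h3
    exact lt_max_of_lt_left h3
  · have h3 := dist_drop r h2 hzy
    rw [hr] at h3
    exact lt_max_of_lt_right h3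

theorem exists_snd {x y : V} (p : T.Walk x y) (h : 0 < p.length) : ∃ z ∈ p.support, T.Adj x z := by
  cases p with
  | nil => exact absurd h (lt_irrefl _)
  | @cons _ z _ hadj' p' =>
    refine ⟨z, ?_, hadj'⟩
    rw [Walk.support_cons]
    exact List.mem_cons_of_mem _ p'.start_mem_support

variable {Γ : Type v} [Group Γ] [MulAction Γ V]

theorem dist_smul (hT : T.IsTree) (hadj : ∀ (g : Γ) (u v : V), T.Adj u v → T.Adj (g • u) (g • v))
    (g : Γ) (u v : V) : T.dist (g • u) (g • v) = T.dist u v := by
  have key : ∀ (g : Γ) (u v : V), T.dist (g • u) (g • v) ≤ T.dist u v := by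
    intro g u v
    obtain ⟨p, hp⟩ := hT.1.exists_walk_length_eq_dist u v
    let f : T →g T := ⟨fun x => g • x, fun {a b} h => hadj g a b h⟩
    have h1 := T.dist_le (p.map f)
    rw [Walk.length_map, hp] at h1
    exact h1
  apply le_antisymm (key g u v)
  have h1 := key g⁻¹ (g • u) (g • v)
  rwa [inv_smul_smul, inv_smul_smul] at h1

/-- an element with a power that fixes a vertex fixes a vertex -/
theorem exists_fixed_of_pow (hT : T.IsTree)
    (hadj : ∀ (g : Γ) (u v : V), T.Adj u v → T.Adj (g • u) (g • v))
    (col : V → Prop) (hcol : ∀ u v, T.Adj u v → (col u ↔ ¬ col v))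
    (hcg : ∀ (g : Γ) v, col (g • v) ↔ col v) (g : Γ) (k : ℕ) (hk : 0 < k) (v : V)
    (hv : g ^ k • v = v) : ∃ w : V, g • w = w := by
  classical
  let D : V → ℕ := fun x => (Finset.range k).sup (fun i => T.dist x (g ^ i • v))
  obtain ⟨x, hx⟩ : ∃ x, ∀ y, D x ≤ D y := by
    have : Nonempty V := ⟨v⟩
    exact ⟨Function.argmin D, fun y => Function.argmin_le D y⟩
  refine ⟨x, ?_⟩
  have hD : ∀ y, D (g • y) ≤ D y := by
    intro y
    apply Finset.sup_le
    intro i hi
    rcases Nat.eq_zero_or_pos i with rfl | hi0
    · have h1 : g ^ 0 • v = g • (g ^ (k - 1) • v) := by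
        rw [pow_zero, one_smul, smul_smul, ← pow_succ', Nat.sub_add_cancel hk, hv]
      rw [h1, dist_smul hT hadj]
      exact Finset.le_sup (f := fun i => T.dist y (g ^ i • v)) (Finset.mem_range.2 (by omega))
    · have h1 : g ^ i • v = g • (g ^ (i - 1) • v) := by
        rw [smul_smul, ← pow_succ', Nat.sub_add_cancel hi0]
      rw [h1, dist_smul hT hadj]
      have := Finset.mem_range.1 hi
      exact Finset.le_sup (f := fun i => T.dist y (g ^ i • v)) (Finset.mem_range.2 (by omega))
  obtain ⟨p, hp⟩ := hT.1.exists_walk_length_eq_dist x (g • x)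
  have hpath : p.IsPath := p.isPath_of_length_eq_dist hp
  rcases Nat.lt_or_ge (T.dist x (g • x)) 2 with h2 | h2
  · rcases Nat.lt_or_ge (T.dist x (g • x)) 1 with h1 | h1
    · have h3 : T.dist x (g • x) = 0 := by omega
      exact (((hT.1 x (g • x)).dist_eq_zero_iff).1 h3).symm
    · have h3 : T.dist x (g • x) = 1 := by omega
      rw [SimpleGraph.dist_eq_one_iff_adj] at h3
      have h4 := hcol _ _ h3
      rw [hcg] at h4
      tauto
  · exfalso
    -- the second vertex
    obtain ⟨z, hzs, hadj'⟩ := exists_snd p (by omega)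
    have hzx : z ≠ x := hadj'.ne.symm
    have hzy : z ≠ g • x := by
      rintro rfl
      have h3 : T.dist x (g • x) = 1 := SimpleGraph.dist_eq_one_iff_adj.2 hadj'
      omega
    have h3 : D z < D x := by
      have h4 : ∀ i ∈ Finset.range k, T.dist z (g ^ i • v) < D x := by
        intro i hi
        refine lt_of_lt_of_le (dist_between hT _ hpath hzs hzx hzy (g ^ i • v)) ?_
        apply max_le
        · exact Finset.le_sup (f := fun i => T.dist x (g ^ i • v)) hi
        · exact (Finset.le_sup (f := fun i => T.dist (g • x) (g ^ i • v)) hi).trans (hD x)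
      have h5 : 0 < D x := lt_of_le_of_lt (Nat.zero_le _) (h4 0 (Finset.mem_range.2 hk))
      exact (Finset.sup_lt_iff h5).2 h4
    exact absurd (hx z) (not_le.2 h3)

end Pool.Agent.H92.Am
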